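import Mathlib

/-!
Following a polyhedral surface in a plane through the origin and an eigenvector.
-/

set_option autoImplicit false

open Set

namespace Pool.Agent.V11212.SL

/-- three dimensional space -/
abbrev E3 := Fin 3 → ℝ

/-- `ℓ` is a supporting functional of (the polygon with vertex set) `V` -/
def Supp (V : Set E3) (l : E3 →ₗ[ℝ] ℝ) : Prop :=
  (∀ v ∈ V, l v ≤ 0) ∧ ∃ v ∈ V, l v < 0

/-- the segment from `a` to `b` lies in a side of the polygon with vertex set `V` -/
def OnSide (V : Set E3) (a b : E3) : Prop :=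
  a ∈ convexHull ℝ V ∧ b ∈ convexHull ℝ V ∧ ∃ l : E3 →ₗ[ℝ] ℝ, Supp V l ∧ l a = 0 ∧ l b = 0

/-- The dihedral angle formed at the edge `[a, b]` by the polygons with vertex sets `V`, `V'` is
well-placed: the origin lies in the opposite dihedral angle. -/
def WellPlaced (V V' : Set E3) (a b : E3) : Prop :=
  ∀ c ∈ V, ∀ d ∈ V', c ∉ line[ℝ, a, b] → d ∉ line[ℝ, a, b] →
    ∃ r α β : ℝ, 0 ≤ α ∧ 0 ≤ β ∧ (0 : E3) = a + r • (b - a) - α • (c - a) - β • (d - a)

section hull

theorem hull_const {V : Set E3} {n : E3 →ₗ[ℝ] ℝ} {c : ℝ} (h : ∀ v ∈ V, n v = c) {x : E3}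
    (hx : x ∈ convexHull ℝ V) : n x = c := by
  have h1 : convexHull ℝ V ⊆ {x | n x = c} := by
    apply convexHull_min
    · exact fun v hv => h v hv
    · exact convex_hyperplane n.isLinear c
  exact h1 hx

theorem hull_le {V : Set E3} {n : E3 →ₗ[ℝ] ℝ} {c : ℝ} (h : ∀ v ∈ V, n v ≤ c) {x : E3}
    (hx : x ∈ convexHull ℝ V) : n x ≤ c := by
  have h1 : convexHull ℝ V ⊆ {x | n x ≤ c} := by
    apply convexHull_min
    · exact fun v hv => h v hv
    · exact convex_halfSpace_le n.isLinear c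
  exact h1 hx

theorem hull_lt {V : Set E3} {n : E3 →ₗ[ℝ] ℝ} {c : ℝ} (h : ∀ v ∈ V, n v < c) {x : E3}
    (hx : x ∈ convexHull ℝ V) : n x < c := by
  have h1 : convexHull ℝ V ⊆ {x | n x < c} := by
    apply convexHull_min
    · exact fun v hv => h v hv
    · exact convex_halfSpace_lt n.isLinear c
  exact h1 hx

/-- a point of the hull between two points of the hull -/
theorem hull_comb {V : Set E3} {x y : E3} (hx : x ∈ convexHull ℝ V) (hy : y ∈ convexHull ℝ V)
    {r : ℝ} (h0 : 0 ≤ r) (h1 : r ≤ 1) : (1 - r) • x + r • y ∈ convexHull ℝ V :=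
  convex_convexHull ℝ V hx hy (by linarith) h0 (by ring)

end hull

/-- supporting functional at a point maximising `τ` on the section `π = 0` -/
theorem exists_supp {V : Set E3} (hV : V.Finite) (n π τ : E3 →ₗ[ℝ] ℝ) (w : E3)
    (hn : ∀ v ∈ V, n v = 1) (hπ : ∀ v ∈ V, π v ≠ 0)
    (hspan : ∀ l : E3 →ₗ[ℝ] ℝ, (∀ v ∈ V, l v = 0) → l = 0) (hw : π w = 0) (hw' : τ w = 1)
    (hβ : n w < 0) {q : E3} (hq : q ∈ convexHull ℝ V) (hq0 : π q = 0) (hτ : 0 ≤ τ q)
    (hmax : ∀ y ∈ convexHull ℝ V, π y = 0 → τ y ≤ τ q) :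
    ∃ l : E3 →ₗ[ℝ] ℝ, Supp V l ∧ l q = 0 := by
  classical
  have hnq : n q = 1 := hull_const hn hq
  -- both signs occur
  have hpos : ∃ a ∈ V, 0 < π a := by
    by_contra hcon
    push Not at hcon
    have : π q < 0 := hull_lt (fun v hv => lt_of_le_of_ne (hcon v hv) (hπ v hv)) hq
    linarith
  have hcross : ∀ a ∈ V, ∀ b ∈ V, 0 < π a → π b < 0 →
      (τ a - τ q) / π a ≤ (τ b - τ q) / π b := by
    intro a ha b hb hpa hpb
    have hab : 0 < π a - π b := by linarith
    have hc : ((1 - (π a / (π a - π b))) • a + (π a / (π a - π b)) • b) ∈ convexHull ℝ V := by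
      apply hull_comb (subset_convexHull ℝ V ha) (subset_convexHull ℝ V hb)
      · positivity
      · rw [div_le_one hab]
        linarith
    have hc0 : π ((1 - (π a / (π a - π b))) • a + (π a / (π a - π b)) • b) = 0 := by
      rw [map_add, map_smul, map_smul, smul_eq_mul, smul_eq_mul]
      field_simp
      ring
    have hc1 := hmax _ hc hc0
    rw [map_add, map_smul, map_smul, smul_eq_mul, smul_eq_mul] at hc1
    have e1 : (1 - (π a / (π a - π b))) * τ a + (π a / (π a - π b)) * τ b =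
        (π a * τ b - π b * τ a) / (π a - π b) := by
      field_simp
      ring
    rw [e1, div_le_iff₀ hab] at hc1
    rw [le_div_iff_of_neg hpb, div_mul_eq_mul_div, le_div_iff₀ hpa]
    nlinarith
  obtain ⟨a0, ha0, ha0'⟩ := hpos
  let P : Finset E3 := hV.toFinset.filter (fun v => 0 < π v)
  have hP : P.Nonempty := ⟨a0, by simp [P, ha0, ha0']⟩
  obtain ⟨a, haP, hamax⟩ := P.exists_max_image (fun v => (τ v - τ q) / π v) hP
  have haV : a ∈ V ∧ 0 < π a := by simpa [P] using haP
  set σ := (τ a - τ q) / π a with hσ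
  let l : E3 →ₗ[ℝ] ℝ := τ - (τ q) • n - σ • π
  have hl : ∀ x, l x = τ x - τ q * n x - σ * π x := by
    intro x
    simp [l]
  have hle : ∀ v ∈ V, l v ≤ 0 := by
    intro v hv
    rw [hl, hn v hv]
    rcases lt_or_gt_of_ne (hπ v hv) with h | h
    · have h1 := hcross a haV.1 v hv haV.2 h
      rw [← hσ, le_div_iff_of_neg h] at h1
      linarith
    · have h1 := hamax v (by simp [P, hv, h])
      rw [div_le_iff₀ h] at h1
      linarith
  refine ⟨l, ⟨hle, ?_⟩, ?_⟩
  · by_contra hcon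
    push Not at hcon
    have h0 : l = 0 := hspan l fun v hv => le_antisymm (hle v hv) (hcon v hv)
    have h1 : l w = 0 := by rw [h0]; rfl
    rw [hl, hw, hw'] at h1
    nlinarith
  · rw [hl, hnq, hq0]
    ring

/-- the surface seen from the origin: functionals, polygons, adjacency -/
structure Surf {J : Type*} (V : J → Set E3) (n : J → (E3 →ₗ[ℝ] ℝ)) (Z : Set E3) : Prop where
  fin : ∀ j, (V j).Finite
  one : ∀ j, ∀ v ∈ V j, n j v = 1
  span : ∀ j, ∀ l : E3 →ₗ[ℝ] ℝ, (∀ v ∈ V j, l v = 0) → l = 0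
  sub : ∀ j, V j ⊆ Z
  nbr : ∀ j, ∀ q ∈ convexHull ℝ (V j), (∃ l, Supp (V j) l ∧ l q = 0) → q ∉ Z →
    ∃ a ∈ Z, ∃ b ∈ Z, ∃ j', q ∈ openSegment ℝ a b ∧ OnSide (V j) a b ∧ OnSide (V j') a b ∧
      WellPlaced (V j) (V j') a b

/-- off the line -/
theorem off_line {a b c : E3} {l : E3 →ₗ[ℝ] ℝ} (ha : l a = 0) (hb : l b = 0) (hc : l c < 0) :
    c ∉ line[ℝ, a, b] := by
  intro h
  have h1 : line[ℝ, a, b] ≤ (LinearMap.ker l).toAffineSubspace := by
    rw [affineSpan_le]
    rintro x (rfl | rfl)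
    · exact ha
    · exact hb
  have h2 : l c = 0 := h1 h
  linarith

/-- the vertices of the neighbouring polygon lie beyond the plane of the polygon -/
theorem beyond {V V' : Set E3} {n : E3 →ₗ[ℝ] ℝ} {a b : E3} (hn : ∀ v ∈ V, n v = 1)
    (ha : n a = 1) (hb : n b = 1) (hwp : WellPlaced V V' a b) {c : E3} (hc : c ∈ V)
    (hc' : c ∉ line[ℝ, a, b]) : ∀ d ∈ V', d ∉ line[ℝ, a, b] → 1 < n d := by
  intro d hd hd'
  obtain ⟨r, α, β, hα, hβ, h⟩ := hwp c hc d hd hc' hd'
  have h1 := congrArg n h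
  rw [map_sub, map_sub, map_add, map_smul, map_smul, map_smul, map_sub, map_sub, map_sub, map_zero,
    ha, hb, hn c hc] at h1
  simp only [sub_self, smul_eq_mul, mul_zero, add_zero, sub_zero] at h1
  by_contra hcon
  push Not at hcon
  nlinarith

theorem beyond' {V V' : Set E3} {n' : E3 →ₗ[ℝ] ℝ} {a b : E3} (hn : ∀ v ∈ V', n' v = 1)
    (ha : n' a = 1) (hb : n' b = 1) (hwp : WellPlaced V V' a b) {d : E3} (hd : d ∈ V')
    (hd' : d ∉ line[ℝ, a, b]) : ∀ c ∈ V, c ∉ line[ℝ, a, b] → 1 < n' c := by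
  intro c hc hc'
  obtain ⟨r, α, β, hα, hβ, h⟩ := hwp c hc d hd hc' hd'
  have h1 := congrArg n' h
  rw [map_sub, map_sub, map_add, map_smul, map_smul, map_smul, map_sub, map_sub, map_sub, map_zero,
    ha, hb, hn d hd] at h1
  simp only [sub_self, smul_eq_mul, mul_zero, add_zero, sub_zero] at h1
  by_contra hcon
  push Not at hcon
  nlinarith

/-- crossing the plane `π = 0` between an end point of an edge and a vertex off the line -/
theorem crossing {V : Set E3} {π m : E3 →ₗ[ℝ] ℝ} {a b d q : E3} (ha : a ∈ convexHull ℝ V)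
    (hb : b ∈ convexHull ℝ V) (hd : d ∈ V) (hq : q ∈ openSegment ℝ a b) (hq0 : π q = 0)
    (hpa : π a ≠ 0) (_hpb : π b ≠ 0) (hma : m a = 1) (hmb : m b = 1) (hmd : 1 < m d) :
    ∃ x ∈ convexHull ℝ V, π x = 0 ∧ 1 < m x := by
  obtain ⟨s, t, hs, ht, hst, rfl⟩ := hq
  rw [map_add, map_smul, map_smul, smul_eq_mul, smul_eq_mul] at hq0
  -- `a` and `b` are on opposite sides
  have hab : π a * π b < 0 := by
    have h1 : π b = - (s * π a) / t := by
      field_simp
      linarith
    rw [h1]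
    have h2 : π a * (-(s * π a) / t) = - (s * (π a) ^ 2 / t) := by
      field_simp
    rw [h2]
    have : 0 < (π a) ^ 2 := by positivity
    have : 0 < s * (π a) ^ 2 / t := by positivity
    linarith
  have key : ∀ a' ∈ convexHull ℝ V, m a' = 1 → π a' * π d < 0 →
      ∃ x ∈ convexHull ℝ V, π x = 0 ∧ 1 < m x := by
    intro a' ha' hma' hneg
    obtain ⟨r, hr0, hr1, hr⟩ : ∃ r : ℝ, 0 < r ∧ r ≤ 1 ∧ (1 - r) * π a' + r * π d = 0 := by
      rcases mul_neg_iff.1 hneg with ⟨h1, h2⟩ | ⟨h1, h2⟩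
      · have h3 : 0 < π a' - π d := by linarith
        refine ⟨π a' / (π a' - π d), by positivity, by rw [div_le_one h3]; linarith, ?_⟩
        field_simp
        ring
      · have h3 : 0 < π d - π a' := by linarith
        have h4 : 0 < - π a' := by linarith
        refine ⟨(- π a') / (π d - π a'), by positivity, by rw [div_le_one h3]; linarith, ?_⟩
        field_simp
        ring
    refine ⟨(1 - r) • a' + r • d, hull_comb ha' (subset_convexHull ℝ V hd) hr0.le hr1, ?_, ?_⟩
    · rw [map_add, map_smul, map_smul, smul_eq_mul, smul_eq_mul]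
      exact hr
    · rw [map_add, map_smul, map_smul, smul_eq_mul, smul_eq_mul, hma']
      nlinarith
  rcases lt_trichotomy (π a * π d) 0 with h | h | h
  · exact key a ha hma h
  · have hd0 : π d = 0 := by
      rcases mul_eq_zero.1 h with h | h
      · exact absurd h hpa
      · exact h
    exact ⟨d, subset_convexHull ℝ V hd, hd0, hmd⟩
  · apply key b hb hmb
    -- `π b * π d < 0`
    have h1 : (π a * π b) * (π a * π d) < 0 := mul_neg_of_neg_of_pos hab h
    have h2 : (π a) ^ 2 * (π b * π d) < 0 := by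
      have : (π a) ^ 2 * (π b * π d) = (π a * π b) * (π a * π d) := by ring
      rw [this]
      exact h1
    have h3 : 0 < (π a) ^ 2 := by positivity
    by_contra hcon
    push Not at hcon
    have := mul_nonneg h3.le hcon
    linarith

end Pool.Agent.V11212.SL
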