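import Mathlib
import Pool.Agent.V11212.SL.Walk

/-!
A generic point of the section of a polygon.
-/

set_option autoImplicit false

open Set MeasureTheory

namespace Pool.Agent.V11212.SL

theorem generic {ι : Type*} [Countable ι] (L : ι → (E3 →ₗ[ℝ] ℝ)) (u u' : E3)
    (h : ∀ i, L i u ≠ 0 ∨ L i u' ≠ 0) :
    ∃ t : ℝ, 0 ≤ t ∧ t ≤ 1 ∧ ∀ i, L i ((1 - t) • u + t • u') ≠ 0 := by
  have h1 : ∀ i, {t : ℝ | L i ((1 - t) • u + t • u') = 0}.Countable := by
    intro i
    apply Set.Subsingleton.countable
    intro t ht t' ht'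
    have e : ∀ t : ℝ, L i ((1 - t) • u + t • u') = L i u + t * (L i u' - L i u) := by
      intro t
      rw [map_add, map_smul, map_smul, smul_eq_mul, smul_eq_mul]
      ring
    have ht1 : L i u + t * (L i u' - L i u) = 0 := by rw [← e]; exact ht
    have ht2 : L i u + t' * (L i u' - L i u) = 0 := by rw [← e]; exact ht'
    have h3 : (t - t') * (L i u' - L i u) = 0 := by linarith
    rcases mul_eq_zero.1 h3 with h4 | h4
    · linarith
    · exfalso
      rw [h4, mul_zero, add_zero] at ht1
      rcases h i with h5 | h5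
      · exact h5 ht1
      · exact h5 (by linarith)
  have h2 : (⋃ i, {t : ℝ | L i ((1 - t) • u + t • u') = 0}).Countable := Set.countable_iUnion h1
  by_contra hcon
  push Not at hcon
  have h3 : Icc (0 : ℝ) 1 ⊆ ⋃ i, {t : ℝ | L i ((1 - t) • u + t • u') = 0} := by
    intro t ht
    obtain ⟨i, hi⟩ := hcon t ht.1 ht.2
    exact mem_iUnion.2 ⟨i, hi⟩
  have h4 := (h2.mono h3).measure_zero volume
  rw [Real.volume_Icc] at h4
  simp at h4

/-- two distinct points in the section of a polygon by the plane `c = 0` -/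
theorem two_points {V : Set E3} (c : E3 →ₗ[ℝ] ℝ)
    (hc : ∀ v ∈ V, c v ≠ 0) (hspan : ∀ l : E3 →ₗ[ℝ] ℝ, (∀ v ∈ V, l v = 0) → l = 0)
    {x : E3} (hx : x ∈ convexHull ℝ V) (hx0 : c x = 0) :
    ∃ u ∈ convexHull ℝ V, ∃ u' ∈ convexHull ℝ V, c u = 0 ∧ c u' = 0 ∧ u ≠ u' := by
  have hpos : ∃ a ∈ V, 0 < c a := by
    by_contra hcon
    push Not at hcon
    have : c x < 0 := hull_lt (fun v hv => lt_of_le_of_ne (hcon v hv) (hc v hv)) hx
    linarith
  have hneg : ∃ a ∈ V, c a < 0 := by
    by_contra hcon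
    push Not at hcon
    have h1 : ∀ v ∈ V, (-c) v < 0 := by
      intro v hv
      have := lt_of_le_of_ne (hcon v hv) (hc v hv).symm
      simpa using this
    have := hull_lt h1 hx
    simp only [LinearMap.neg_apply] at this
    linarith
  obtain ⟨a0, ha0, hca0⟩ := hpos
  obtain ⟨b0, hb0, hcb0⟩ := hneg
  by_contra hcon
  push Not at hcon
  -- all crossings agree
  obtain ⟨l, hl0, hla, hlb⟩ : ∃ l : E3 →ₗ[ℝ] ℝ, l ≠ 0 ∧ l a0 = 0 ∧ l b0 = 0 := by
    have h1 : Submodule.span ℝ ({a0, b0} : Set E3) < ⊤ := by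
      rw [lt_top_iff_ne_top]
      intro htop
      have h2 : Module.finrank ℝ (Submodule.span ℝ ({a0, b0} : Set E3)) = 3 := by
        rw [htop, finrank_top]
        simp
      have h3 : Module.finrank ℝ (Submodule.span ℝ ({a0, b0} : Set E3)) ≤ 2 := by
        have h4 := finrank_span_finset_le_card (R := ℝ) ({a0, b0} : Finset E3)
        have h5 : ((({a0, b0} : Finset E3)) : Set E3) = {a0, b0} := by simp
        rw [Set.finrank, h5] at h4
        exact le_trans h4 Finset.card_le_two
      omega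
    obtain ⟨f, hf, hf'⟩ := Submodule.exists_le_ker_of_lt_top _ h1
    refine ⟨f, hf, hf' (Submodule.subset_span (by simp)), hf' (Submodule.subset_span (by simp))⟩
  have hcr : ∀ a ∈ V, ∀ b ∈ V, 0 < c a → c b < 0 → ∃ r : ℝ, 0 < r ∧ r < 1 ∧
      ((1 - r) • a + r • b) ∈ convexHull ℝ V ∧ c ((1 - r) • a + r • b) = 0 := by
    intro a ha b hb h1 h2
    have h3 : 0 < c a - c b := by linarith
    refine ⟨c a / (c a - c b), by positivity, by rw [div_lt_one h3]; linarith, ?_, ?_⟩
    · exact hull_comb (subset_convexHull ℝ V ha) (subset_convexHull ℝ V hb) (by positivity)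
        (by rw [div_le_one h3]; linarith)
    · rw [map_add, map_smul, map_smul, smul_eq_mul, smul_eq_mul]
      field_simp
      ring
  obtain ⟨r0, hr0, hr0', hmem0, hzero0⟩ := hcr a0 ha0 b0 hb0 hca0 hcb0
  have hl00 : l ((1 - r0) • a0 + r0 • b0) = 0 := by
    rw [map_add, map_smul, map_smul, hla, hlb]
    simp
  have hlneg : ∀ b ∈ V, c b < 0 → l b = 0 := by
    intro b hb hcb
    obtain ⟨r, hr, hr', hmem, hzero⟩ := hcr a0 ha0 b hb hca0 hcb
    have h1 := hcon _ hmem _ hmem0 hzero hzero0
    have h2 : l ((1 - r) • a0 + r • b) = 0 := by rw [h1, hl00]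
    rw [map_add, map_smul, map_smul, hla, smul_zero, zero_add, smul_eq_mul] at h2
    rcases mul_eq_zero.1 h2 with h3 | h3
    · exact absurd h3 hr.ne'
    · exact h3
  have hlpos : ∀ a ∈ V, 0 < c a → l a = 0 := by
    intro a ha hca
    obtain ⟨r, hr, hr', hmem, hzero⟩ := hcr a ha b0 hb0 hca hcb0
    have h1 := hcon _ hmem _ hmem0 hzero hzero0
    have h2 : l ((1 - r) • a + r • b0) = 0 := by rw [h1, hl00]
    rw [map_add, map_smul, map_smul, hlb, smul_zero, add_zero, smul_eq_mul] at h2
    rcases mul_eq_zero.1 h2 with h3 | h3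
    · linarith
    · exact h3
  apply hl0
  apply hspan
  intro v hv
  rcases lt_or_gt_of_ne (hc v hv) with h | h
  · exact hlneg v hv h
  · exact hlpos v hv h

/-- the generic point -/
theorem exists_generic {V Z : Set E3} (hZ : Z.Countable) (c1 c2 c3 n : E3 →ₗ[ℝ] ℝ)
    (hn : ∀ v ∈ V, n v = 1) (hVZ : V ⊆ Z)
    (hc1 : ∀ z ∈ Z, c1 z ≠ 0) (_hc2 : ∀ z ∈ Z, c2 z ≠ 0) (hc3 : ∀ z ∈ Z, c3 z ≠ 0)
    (hinj : ∀ x, c1 x = 0 → c2 x = 0 → c3 x = 0 → x = 0)
    (hspan : ∀ l : E3 →ₗ[ℝ] ℝ, (∀ v ∈ V, l v = 0) → l = 0)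
    {x : E3} (hx : x ∈ convexHull ℝ V) (hx0 : c3 x = 0) :
    ∃ p ∈ convexHull ℝ V, c3 p = 0 ∧ c1 p ≠ 0 ∧ c2 p ≠ 0 ∧
      ∀ z ∈ Z, c1 p * c2 z - c2 p * c1 z ≠ 0 := by
  obtain ⟨u, hu, u', hu', hcu, hcu', hne⟩ :=
    two_points c3 (fun v hv => hc3 v (hVZ hv)) hspan hx hx0
  have hnu : n u = 1 := hull_const hn hu
  have hnu' : n u' = 1 := hull_const hn hu'
  -- proportional points agree
  have hprop : ∀ r : ℝ, u' ≠ r • u := by
    intro r hr
    have h1 : n u' = r * n u := by rw [hr, map_smul, smul_eq_mul]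
    rw [hnu, hnu', mul_one] at h1
    rw [← h1, one_smul] at hr
    exact hne hr.symm
  -- a functional `a c1 + b c2`, `(a, b) ≠ 0`, cannot vanish at both points
  have key : ∀ a b : ℝ, (a ≠ 0 ∨ b ≠ 0) → (a • c1 + b • c2) u ≠ 0 ∨ (a • c1 + b • c2) u' ≠ 0 := by
    intro a b hab
    by_contra hcon
    push Not at hcon
    obtain ⟨h1, h2⟩ := hcon
    simp only [LinearMap.add_apply, LinearMap.smul_apply, smul_eq_mul] at h1 h2
    rcases hab with ha | hb
    · -- `c2 u ≠ 0`
      have h3 : c2 u ≠ 0 := by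
        intro h0
        rw [h0, mul_zero, add_zero] at h1
        have h4 : c1 u = 0 := by
          rcases mul_eq_zero.1 h1 with h | h
          · exact absurd h ha
          · exact h
        have := hinj u h4 h0 hcu
        rw [this, map_zero] at hnu
        norm_num at hnu
      apply hprop (c2 u' / c2 u)
      rw [← sub_eq_zero]
      apply hinj
      · rw [map_sub, map_smul, smul_eq_mul]
        have e1 : c1 u = - (b * c2 u) / a := by
          field_simp
          linarith
        have e2 : c1 u' = - (b * c2 u') / a := by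
          field_simp
          linarith
        rw [e1, e2]
        field_simp
        ring
      · rw [map_sub, map_smul, smul_eq_mul]
        field_simp
        ring
      · rw [map_sub, map_smul, smul_eq_mul, hcu, hcu']
        ring
    · have h3 : c1 u ≠ 0 := by
        intro h0
        rw [h0, mul_zero, zero_add] at h1
        have h4 : c2 u = 0 := by
          rcases mul_eq_zero.1 h1 with h | h
          · exact absurd h hb
          · exact h
        have := hinj u h0 h4 hcu
        rw [this, map_zero] at hnu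
        norm_num at hnu
      apply hprop (c1 u' / c1 u)
      rw [← sub_eq_zero]
      apply hinj
      · rw [map_sub, map_smul, smul_eq_mul]
        field_simp
        ring
      · rw [map_sub, map_smul, smul_eq_mul]
        have e1 : c2 u = - (a * c1 u) / b := by
          field_simp
          linarith
        have e2 : c2 u' = - (a * c1 u') / b := by
          field_simp
          linarith
        rw [e1, e2]
        field_simp
        ring
      · rw [map_sub, map_smul, smul_eq_mul, hcu, hcu']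
        ring
  have : Countable Z := hZ.to_subtype
  let L : Option (Option Z) → (E3 →ₗ[ℝ] ℝ) := fun i =>
    match i with
    | none => (1 : ℝ) • c1 + (0 : ℝ) • c2
    | some none => (0 : ℝ) • c1 + (1 : ℝ) • c2
    | some (some z) => (c2 z) • c1 + (- c1 z) • c2
  obtain ⟨t, ht0, ht1, ht⟩ := generic L u u' (by
    intro i
    match i with
    | none => exact key 1 0 (Or.inl one_ne_zero)
    | some none => exact key 0 1 (Or.inr one_ne_zero)
    | some (some z) => exact key (c2 z) (- c1 z) (Or.inr (neg_ne_zero.2 (hc1 z z.2))))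
  refine ⟨(1 - t) • u + t • u', hull_comb hu hu' ht0 ht1, ?_, ?_, ?_, ?_⟩
  · rw [map_add, map_smul, map_smul, hcu, hcu']
    simp
  · have := ht none
    simpa [L] using this
  · have := ht (some none)
    simpa [L] using this
  · intro z hz
    have := ht (some (some ⟨z, hz⟩))
    simp only [L, LinearMap.add_apply, LinearMap.smul_apply, smul_eq_mul] at this
    intro h0
    apply this
    linarith

end Pool.Agent.V11212.SL
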