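import Mathlib
import Pool.Agent.V11212.SL.Walk

/-!
Integer polygons, their planes, and the action of integer matrices.
-/

set_option autoImplicit false

open Set Matrix

namespace Pool.Agent.V11212.SL

/-- an integer vector as a real vector -/
def castV (v : Fin 3 → ℤ) : E3 := fun i => (v i : ℝ)

/-- the vertices of a face, as real vectors -/
def castSet (T : Finset (Fin 3 → ℤ)) : Set E3 := castV '' (T : Set (Fin 3 → ℤ))

/-- the vertices of the image of a face under an integer matrix -/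
def move (M : Matrix (Fin 3) (Fin 3) ℤ) (T : Finset (Fin 3 → ℤ)) : Set E3 :=
  (fun v => castV (M *ᵥ v)) '' (T : Set (Fin 3 → ℤ))

/-- the face with vertex set `T` is two-dimensional -/
def IsPolygon (T : Finset (Fin 3 → ℤ)) : Prop :=
  Module.finrank ℝ (vectorSpan ℝ (castSet T)) = 2

/-- the linear map of an integer matrix -/
noncomputable def Bf (M : Matrix (Fin 3) (Fin 3) ℤ) : E3 →ₗ[ℝ] E3 :=
  Matrix.mulVecLin (M.map (Int.cast : ℤ → ℝ))

theorem Bf_castV (M : Matrix (Fin 3) (Fin 3) ℤ) (v : Fin 3 → ℤ) :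
    Bf M (castV v) = castV (M *ᵥ v) := by
  funext i
  simp only [Bf, Matrix.mulVecLin_apply, castV, Matrix.mulVec, dotProduct, Matrix.map_apply]
  push_cast
  rfl

theorem move_eq (M : Matrix (Fin 3) (Fin 3) ℤ) (T : Finset (Fin 3 → ℤ)) :
    move M T = Bf M '' (castSet T) := by
  unfold move castSet
  rw [Set.image_image]
  apply Set.image_congr
  intro v _
  exact (Bf_castV M v).symm

theorem Bf_mul (M N : Matrix (Fin 3) (Fin 3) ℤ) (x : E3) : Bf (M * N) x = Bf M (Bf N x) := by
  have h : (M * N).map (Int.cast : ℤ → ℝ) = M.map (Int.cast : ℤ → ℝ) * N.map (Int.cast : ℤ → ℝ) := by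
    have := Matrix.map_mul (L := M) (M := N) (f := Int.castRingHom ℝ)
    simpa using this
  unfold Bf
  rw [h]
  simp only [Matrix.mulVecLin_apply]
  rw [Matrix.mulVec_mulVec]

theorem Bf_one (x : E3) : Bf 1 x = x := by
  unfold Bf
  rw [Matrix.map_one _ (by simp) (by simp)]
  simp

theorem castV_inj {v w : Fin 3 → ℤ} (h : castV v = castV w) : v = w := by
  funext i
  have := congrFun h i
  simp only [castV] at this
  exact_mod_cast this

theorem castV_zero : castV 0 = 0 := by
  funext i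
  simp [castV]

/-- a `ℚ`-linear retraction of `ℝ` onto `ℚ` -/
theorem exists_retr : ∃ ρ : ℝ →ₗ[ℚ] ℚ, ρ 1 = 1 := by
  have hinj : LinearMap.ker (Algebra.linearMap ℚ ℝ) = ⊥ := by
    rw [LinearMap.ker_eq_bot]
    exact (algebraMap ℚ ℝ).injective
  obtain ⟨ρ, hρ⟩ := LinearMap.exists_leftInverse_of_injective (Algebra.linearMap ℚ ℝ) hinj
  refine ⟨ρ, ?_⟩
  have := congrArg (fun f => f 1) hρ
  simpa using this

theorem base_notMem {T : Finset (Fin 3 → ℤ)} (h0 : (0 : E3) ∉ affineSpan ℝ (castSet T)) {p : E3}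
    (hp : p ∈ castSet T) : p ∉ vectorSpan ℝ (castSet T) := by
  intro h
  apply h0
  have h1 : -p ∈ (affineSpan ℝ (castSet T)).direction := by
    rw [direction_affineSpan]
    exact Submodule.neg_mem _ h
  have h2 := AffineSubspace.vadd_mem_of_mem_direction h1 (subset_affineSpan ℝ _ hp)
  rw [vadd_eq_add, neg_add_cancel] at h2
  exact h2

theorem exists_normal {T : Finset (Fin 3 → ℤ)} (hT : T.Nonempty)
    (h0 : (0 : E3) ∉ affineSpan ℝ (castSet T)) :
    ∃ r : Fin 3 → ℚ, ∀ v ∈ T, ∑ i, r i * (v i : ℚ) = 1 := by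
  obtain ⟨v0, hv0⟩ := hT
  have hp0 : castV v0 ∈ castSet T := ⟨v0, hv0, rfl⟩
  have h1 := base_notMem h0 hp0
  obtain ⟨f, hf, hf'⟩ := Submodule.exists_le_ker_of_notMem h1
  have h2 : ∀ v ∈ T, f (castV v) = f (castV v0) := by
    intro v hv
    have h3 : castV v - castV v0 ∈ vectorSpan ℝ (castSet T) :=
      vsub_mem_vectorSpan ℝ ⟨v, hv, rfl⟩ hp0
    have h4 := hf' h3
    rw [LinearMap.mem_ker, map_sub, sub_eq_zero] at h4
    exact h4
  obtain ⟨ρ, hρ⟩ := exists_retr
  refine ⟨fun i => ρ ((f (castV v0))⁻¹ * f (Pi.single i 1)), ?_⟩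
  intro v hv
  have h5 : f (castV v) = ∑ i, (v i : ℝ) * f (Pi.single i 1) := by
    have h6 : castV v = ∑ i, (v i : ℝ) • (Pi.single i 1 : E3) := by
      funext j
      rw [Finset.sum_apply]
      simp [castV, Pi.single_apply]
    rw [h6, map_sum]
    apply Finset.sum_congr rfl
    intro i _
    rw [map_smul, smul_eq_mul]
  have h7 : ∑ i, ρ ((f (castV v0))⁻¹ * f (Pi.single i 1)) * (v i : ℚ) =
      ρ (∑ i, (v i : ℝ) * ((f (castV v0))⁻¹ * f (Pi.single i 1))) := by
    rw [map_sum]
    apply Finset.sum_congr rfl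
    intro i _
    have h8 : (v i : ℝ) * ((f (castV v0))⁻¹ * f (Pi.single i 1)) =
        (v i : ℚ) • ((f (castV v0))⁻¹ * f (Pi.single i 1)) := by
      rw [Rat.smul_def]
      push_cast
      rfl
    rw [h8, map_smul, smul_eq_mul, mul_comm]
  rw [h7]
  have h9 : ∑ i, (v i : ℝ) * ((f (castV v0))⁻¹ * f (Pi.single i 1)) = 1 := by
    have : ∑ i, (v i : ℝ) * ((f (castV v0))⁻¹ * f (Pi.single i 1)) =
        (f (castV v0))⁻¹ * ∑ i, (v i : ℝ) * f (Pi.single i 1) := by
      rw [Finset.mul_sum]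
      apply Finset.sum_congr rfl
      intro i _
      ring
    rw [this, ← h5, h2 v hv, inv_mul_cancel₀ hf]
  rw [h9, hρ]

theorem poly_nonempty {T : Finset (Fin 3 → ℤ)} (h : IsPolygon T) : T.Nonempty := by
  rw [Finset.nonempty_iff_ne_empty]
  rintro rfl
  have h1 : castSet ∅ = ∅ := by
    unfold castSet
    rw [Finset.coe_empty, Set.image_empty]
  unfold IsPolygon at h
  rw [h1, vectorSpan_empty, finrank_bot] at h
  norm_num at h

theorem poly_span {T : Finset (Fin 3 → ℤ)} (h : IsPolygon T)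
    (h0 : (0 : E3) ∉ affineSpan ℝ (castSet T)) (l : E3 →ₗ[ℝ] ℝ) (hl : ∀ v ∈ castSet T, l v = 0) :
    l = 0 := by
  obtain ⟨v0, hv0⟩ := poly_nonempty h
  have hp0 : castV v0 ∈ castSet T := ⟨v0, hv0, rfl⟩
  have h1 := base_notMem h0 hp0
  have h2 : vectorSpan ℝ (castSet T) ≤ Submodule.span ℝ (castSet T) := by
    unfold vectorSpan
    rw [Submodule.span_le]
    rintro _ ⟨a, ha, b, hb, rfl⟩
    exact Submodule.sub_mem _ (Submodule.subset_span ha) (Submodule.subset_span hb)
  have h3 : vectorSpan ℝ (castSet T) < Submodule.span ℝ (castSet T) := by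
    refine lt_of_le_of_ne h2 ?_
    intro he
    apply h1
    rw [he]
    exact Submodule.subset_span hp0
  have h4 := Submodule.finrank_lt_finrank_of_lt h3
  unfold IsPolygon at h
  rw [h] at h4
  have h5 : Submodule.span ℝ (castSet T) = ⊤ := by
    apply Submodule.eq_top_of_finrank_eq
    apply le_antisymm (Submodule.finrank_le _)
    have h6 : Module.finrank ℝ E3 = 3 := by
      simp [Module.finrank_fintype_fun_eq_card]
    rw [h6]
    exact h4
  apply LinearMap.ext
  intro x
  have hx : x ∈ Submodule.span ℝ (castSet T) := by rw [h5]; trivial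
  refine Submodule.span_induction (p := fun x _ => l x = (0 : E3 →ₗ[ℝ] ℝ) x) ?_ ?_ ?_ ?_ hx
  · exact fun v hv => hl v hv
  · simp
  · intro a b _ _ ha hb
    rw [map_add, ha, hb]
    simp
  · intro c a _ ha
    rw [map_smul, ha]
    simp

end Pool.Agent.V11212.SL
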