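import Mathlib

/-!
Irreducible characteristic polynomial: no rational vector is orthogonal to an eigenvector.
-/

set_option autoImplicit false

open Polynomial Matrix

namespace Pool.Agent.V11212.SL

theorem kry_indep (M : Matrix (Fin 3) (Fin 3) ℚ) (hirr : Irreducible M.charpoly)
    (v : Fin 3 → ℚ) (hv : v ≠ 0) :
    LinearIndependent ℚ (fun i : Fin 3 => (M ^ (i : ℕ)) *ᵥ v) := by
  rw [Fintype.linearIndependent_iff]
  intro g hg
  set f : ℚ[X] := ∑ i : Fin 3, C (g i) * X ^ (i : ℕ) with hf
  have h1 : (aeval M f) *ᵥ v = 0 := by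
    rw [hf, map_sum, Matrix.sum_mulVec, ← hg]
    apply Finset.sum_congr rfl
    intro i _
    rw [map_mul, map_pow, aeval_X, aeval_C, Algebra.algebraMap_eq_smul_one, smul_mul_assoc,
      one_mul, Matrix.smul_mulVec]
  have h2 : f = 0 := by
    by_contra hne
    have hdeg : f.natDegree < M.charpoly.natDegree := by
      rw [Matrix.charpoly_natDegree_eq_dim, Fintype.card_fin]
      apply lt_of_le_of_lt (b := 2) _ (by norm_num)
      apply natDegree_sum_le_of_forall_le
      intro i _
      apply le_trans (natDegree_C_mul_X_pow_le _ _)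
      have := i.2
      omega
    have hcop : IsCoprime M.charpoly f := by
      rw [hirr.coprime_iff_not_dvd]
      intro hd
      exact absurd (natDegree_le_of_dvd hd hne) (by omega)
    obtain ⟨u, w, huw⟩ := hcop
    have h3 := congrArg (aeval M) huw
    rw [map_add, map_mul, map_mul, Matrix.aeval_self_charpoly, mul_zero, zero_add, map_one] at h3
    have h4 : v = (aeval M w) *ᵥ ((aeval M f) *ᵥ v) := by
      rw [Matrix.mulVec_mulVec, h3, Matrix.one_mulVec]
    rw [h1, Matrix.mulVec_zero] at h4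
    exact hv h4
  intro i
  have h3 : f.coeff (i : ℕ) = g i := by
    rw [hf, finsetSum_coeff]
    rw [Finset.sum_eq_single i]
    · rw [coeff_C_mul_X_pow, if_pos rfl]
    · intro j _ hj
      rw [coeff_C_mul_X_pow, if_neg]
      intro h
      exact hj (Fin.ext h.symm)
    · intro h
      exact absurd (Finset.mem_univ i) h
  rw [← h3, h2, coeff_zero]

theorem kry (M : Matrix (Fin 3) (Fin 3) ℚ) (hirr : Irreducible M.charpoly)
    (v : Fin 3 → ℚ) (hv : v ≠ 0) (y : Fin 3 → ℝ)
    (h : ∀ i : ℕ, (fun j => (((M ^ i) *ᵥ v) j : ℝ)) ⬝ᵥ y = 0) : y = 0 := by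
  have h1 := kry_indep M hirr v hv
  set K : Matrix (Fin 3) (Fin 3) ℚ := Matrix.of (fun i : Fin 3 => (M ^ (i : ℕ)) *ᵥ v) with hK
  have h2 : IsUnit K := by
    rw [← Matrix.linearIndependent_rows_iff_isUnit]
    exact h1
  have h3 : K.det ≠ 0 := by
    rw [Matrix.isUnit_iff_isUnit_det] at h2
    exact h2.ne_zero
  have h4 : (K.map (algebraMap ℚ ℝ)).det ≠ 0 := by
    rw [← RingHom.mapMatrix_apply, ← RingHom.map_det]
    intro h0
    apply h3
    have := (map_eq_zero (algebraMap ℚ ℝ)).1 h0
    exact this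
  apply Matrix.eq_zero_of_mulVec_eq_zero h4
  funext i
  exact h (i : ℕ)

end Pool.Agent.V11212.SL
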