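import Mathlib
import Pool.Agent.V11212.SL.Geo
import Pool.Agent.V11212.SL.Kry

/-!
Eigen-coordinates of integer matrices, rational vectors and rational planes.
-/

set_option autoImplicit false

open Set Matrix

namespace Pool.Agent.V11212.SL

/-- a basis of real three-dimensional space -/
abbrev Bas := Module.Basis (Fin 3) ℝ E3

theorem coord_self (e : Bas) (k : Fin 3) : e.coord k (e k) = 1 := by
  rw [Module.Basis.coord_apply, e.repr_self, Finsupp.single_apply, if_pos rfl]

theorem coord_ne (e : Bas) {k i : Fin 3} (h : i ≠ k) : e.coord k (e i) = 0 := by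
  rw [Module.Basis.coord_apply, e.repr_self, Finsupp.single_apply, if_neg h]

theorem coord_Bf {M : Matrix (Fin 3) (Fin 3) ℤ} {e : Bas} {μ : Fin 3 → ℝ}
    (h : ∀ k, Bf M (e k) = μ k • e k) (k : Fin 3) (x : E3) :
    e.coord k (Bf M x) = μ k * e.coord k x := by
  have h1 : (e.coord k) ∘ₗ (Bf M) = μ k • e.coord k := by
    apply e.ext
    intro i
    rw [LinearMap.comp_apply, h i, map_smul, LinearMap.smul_apply, smul_eq_mul, smul_eq_mul]
    by_cases hik : i = k
    · rw [hik]
    · rw [coord_ne e hik, mul_zero, mul_zero]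
  have h2 := congrArg (fun f => f x) h1
  exact h2

/-- coordinates determine a vector -/
theorem ext_coord (e : Bas) {x y : E3} (h : ∀ k, e.coord k x = e.coord k y) : x = y :=
  e.ext_elem h

theorem lin_sum (l : E3 →ₗ[ℝ] ℝ) (x : E3) : l x = ∑ j, x j * l (Pi.single j 1) := by
  have h6 : x = ∑ j, x j • (Pi.single j 1 : E3) := by
    funext i
    rw [Finset.sum_apply]
    simp [Pi.single_apply]
  conv_lhs => rw [h6]
  rw [map_sum]
  apply Finset.sum_congr rfl
  intro j _
  rw [map_smul, smul_eq_mul]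

theorem mulVec_cast (A : Matrix (Fin 3) (Fin 3) ℤ) (v : Fin 3 → ℤ) :
    (A.map (Int.cast : ℤ → ℚ)) *ᵥ (fun j => (v j : ℚ)) = fun j => ((A *ᵥ v) j : ℚ) := by
  funext i
  simp only [Matrix.mulVec, dotProduct, Matrix.map_apply]
  push_cast
  rfl

theorem pow_cast (A : Matrix (Fin 3) (Fin 3) ℤ) (v : Fin 3 → ℤ) (i : ℕ) :
    ((A.map (Int.cast : ℤ → ℚ)) ^ i) *ᵥ (fun j => (v j : ℚ)) = fun j => (((A ^ i) *ᵥ v) j : ℚ) := by
  induction i with
  | zero => simp
  | succ i ih =>
    rw [pow_succ', ← Matrix.mulVec_mulVec, ih, mulVec_cast, pow_succ', ← Matrix.mulVec_mulVec]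

theorem coord_pow {A : Matrix (Fin 3) (Fin 3) ℤ} {lam : Fin 3 → ℝ} {e : Bas}
    (he : ∀ k, Bf A (e k) = lam k • e k) (v : Fin 3 → ℤ) (k : Fin 3) (i : ℕ) :
    e.coord k (castV ((A ^ i) *ᵥ v)) = lam k ^ i * e.coord k (castV v) := by
  induction i with
  | zero => simp
  | succ i ih =>
    rw [pow_succ', ← Matrix.mulVec_mulVec, ← Bf_castV, coord_Bf he, ih]
    ring

/-- a functional with the eigen-property kills no nonzero integer vector -/
theorem functional_ne {A : Matrix (Fin 3) (Fin 3) ℤ}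
    (hirr : Irreducible (A.map (Int.cast : ℤ → ℚ)).charpoly) {v : Fin 3 → ℤ} (hv : v ≠ 0)
    (l : E3 →ₗ[ℝ] ℝ) (hl : ∀ i : ℕ, l (castV ((A ^ i) *ᵥ v)) = 0) : l = 0 := by
  have h1 : (fun j => l (Pi.single j 1)) = (0 : Fin 3 → ℝ) := by
    apply kry _ hirr (fun j => (v j : ℚ))
    · intro h0
      apply hv
      funext j
      have := congrFun h0 j
      simpa using this
    · intro i
      rw [pow_cast]
      have h2 := hl i
      rw [lin_sum] at h2
      rw [← h2]
      unfold dotProduct castV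
      apply Finset.sum_congr rfl
      intro j _
      push_cast
      rfl
  apply LinearMap.ext
  intro x
  rw [lin_sum]
  have h3 : ∀ j, l (Pi.single j 1) = 0 := fun j => congrFun h1 j
  simp [h3]

/-- nonzero integer vectors have nonzero eigen-coordinates -/
theorem int_coord_ne {A : Matrix (Fin 3) (Fin 3) ℤ}
    (hirr : Irreducible (A.map (Int.cast : ℤ → ℚ)).charpoly) {lam : Fin 3 → ℝ} {e : Bas}
    (he : ∀ k, Bf A (e k) = lam k • e k) {v : Fin 3 → ℤ} (hv : v ≠ 0) (k : Fin 3) :
    e.coord k (castV v) ≠ 0 := by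
  intro h0
  have h1 := functional_ne hirr hv (e.coord k) (by
    intro i
    rw [coord_pow he, h0, mul_zero])
  have h2 := coord_self e k
  rw [h1] at h2
  simp at h2

/-- distinct eigenvalues -/
theorem lam_inj {A : Matrix (Fin 3) (Fin 3) ℤ}
    (hirr : Irreducible (A.map (Int.cast : ℤ → ℚ)).charpoly) {lam : Fin 3 → ℝ} {e : Bas}
    (he : ∀ k, Bf A (e k) = lam k • e k) : Function.Injective lam := by
  intro i j hij
  by_contra hne
  set v : Fin 3 → ℤ := fun _ => 1 with hv
  have hv0 : v ≠ 0 := by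
    intro h
    have := congrFun h 0
    simp [hv] at this
  have hi := int_coord_ne hirr he hv0 i
  set l : E3 →ₗ[ℝ] ℝ := (e.coord j (castV v)) • e.coord i - (e.coord i (castV v)) • e.coord j with hl
  have h1 := functional_ne hirr hv0 l (by
    intro m
    rw [hl, LinearMap.sub_apply, LinearMap.smul_apply, LinearMap.smul_apply, coord_pow he,
      coord_pow he, hij, smul_eq_mul, smul_eq_mul]
    ring)
  have h2 : l (e j) = 0 := by rw [h1]; rfl
  rw [hl, LinearMap.sub_apply, LinearMap.smul_apply, LinearMap.smul_apply, coord_self,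
    coord_ne e (fun h => hne h.symm), smul_eq_mul, smul_eq_mul] at h2
  apply hi
  linarith

/-- the functional of a rational row vector -/
noncomputable def row (r : Fin 3 → ℚ) : E3 →ₗ[ℝ] ℝ :=
  ∑ i, (r i : ℝ) • (LinearMap.proj i : E3 →ₗ[ℝ] ℝ)

theorem row_apply (r : Fin 3 → ℚ) (x : E3) : row r x = ∑ i, (r i : ℝ) * x i := by
  unfold row
  rw [LinearMap.sum_apply]
  apply Finset.sum_congr rfl
  intro i _
  rw [LinearMap.smul_apply, LinearMap.proj_apply, smul_eq_mul]

theorem row_castV (r : Fin 3 → ℚ) (v : Fin 3 → ℤ) : row r (castV v) = ((∑ i, r i * (v i : ℚ) : ℚ) : ℝ) := by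
  rw [row_apply]
  push_cast
  rfl

/-- eigenvectors lie in no rational plane through the origin -/
theorem row_ne {A : Matrix (Fin 3) (Fin 3) ℤ}
    (hirr : Irreducible (A.map (Int.cast : ℤ → ℚ)).charpoly) {lam : Fin 3 → ℝ} {e : Bas}
    (he : ∀ k, Bf A (e k) = lam k • e k) {r : Fin 3 → ℚ} (hr : r ≠ 0) (k : Fin 3) :
    row r (e k) ≠ 0 := by
  intro h0
  have hpow : ∀ i : ℕ, ∀ r : Fin 3 → ℚ,
      row ((((A.map (Int.cast : ℤ → ℚ))ᵀ) ^ i) *ᵥ r) (e k) = lam k ^ i * row r (e k) := by
    intro i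
    induction i with
    | zero => intro r; simp
    | succ i ih =>
      intro r
      rw [pow_succ, ← Matrix.mulVec_mulVec, ih]
      have h1 : row ((A.map (Int.cast : ℤ → ℚ))ᵀ *ᵥ r) (e k) = row r (Bf A (e k)) := by
        rw [row_apply, row_apply]
        unfold Bf
        simp only [Matrix.mulVecLin_apply, Matrix.mulVec, dotProduct, Matrix.transpose_apply,
          Matrix.map_apply]
        push_cast
        simp only [Finset.sum_mul, Finset.mul_sum]
        rw [Finset.sum_comm]
        apply Finset.sum_congr rfl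
        intro i _
        apply Finset.sum_congr rfl
        intro j _
        ring
      rw [h1, he, map_smul, smul_eq_mul]
      ring
  have h1 : (e k : Fin 3 → ℝ) = 0 := by
    apply kry ((A.map (Int.cast : ℤ → ℚ))ᵀ) (by rw [Matrix.charpoly_transpose]; exact hirr) r hr
    intro i
    have h2 := hpow i r
    rw [h0, mul_zero, row_apply] at h2
    exact h2
  exact e.ne_zero k h1

end Pool.Agent.V11212.SL
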