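import Mathlib
import Pool.Agent.V11212.SL.Arith

/-!
The group of integer matrices which are positive diagonal in the eigenbasis.
-/

set_option autoImplicit false

open Set Matrix

namespace Pool.Agent.V11212.SL

/-- three by three integer matrices, invertible over the integers -/
abbrev G3 := GL (Fin 3) ℤ

/-- The set of the invertible integer matrices that commute with `A` and have positive
eigenvalues. -/
def XiPlus (A : Matrix (Fin 3) (Fin 3) ℤ) : Set (GL (Fin 3) ℤ) :=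
  {B | (B : Matrix (Fin 3) (Fin 3) ℤ) * A = A * (B : Matrix (Fin 3) (Fin 3) ℤ) ∧
    ∀ μ : ℝ, Module.End.HasEigenvalue (Bf (B : Matrix (Fin 3) (Fin 3) ℤ)) μ → 0 < μ}

theorem diag_of_comm {A : Matrix (Fin 3) (Fin 3) ℤ} {lam : Fin 3 → ℝ} {e : Bas}
    (he : ∀ k, Bf A (e k) = lam k • e k) (hlam : Function.Injective lam)
    {B : Matrix (Fin 3) (Fin 3) ℤ} (hB : B * A = A * B) (k : Fin 3) :
    Bf B (e k) = (e.coord k (Bf B (e k))) • e k := by
  have h1 : Bf A (Bf B (e k)) = lam k • Bf B (e k) := by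
    rw [← Bf_mul, ← hB, Bf_mul, he, map_smul]
  apply ext_coord e
  intro j
  rw [map_smul, smul_eq_mul]
  by_cases hjk : k = j
  · subst hjk
    rw [coord_self, mul_one]
  · rw [coord_ne e hjk, mul_zero]
    have h2 := congrArg (e.coord j) h1
    rw [coord_Bf he, map_smul, smul_eq_mul] at h2
    have h3 : (lam j - lam k) * e.coord j (Bf B (e k)) = 0 := by linarith
    rcases mul_eq_zero.1 h3 with h | h
    · exact absurd (hlam (sub_eq_zero.1 h).symm) hjk
    · exact h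

/-- the subgroup of the matrices that are diagonal with positive eigenvalues -/
def posDiag (e : Bas) : Subgroup (GL (Fin 3) ℤ) where
  carrier := {B | ∀ k, ∃ μ : ℝ, 0 < μ ∧ Bf (B : Matrix (Fin 3) (Fin 3) ℤ) (e k) = μ • e k}
  mul_mem' := by
    intro B C hB hC k
    obtain ⟨μ, hμ, h1⟩ := hB k
    obtain ⟨ν, hν, h2⟩ := hC k
    refine ⟨ν * μ, by positivity, ?_⟩
    rw [Units.val_mul, Bf_mul, h2, map_smul, h1, smul_smul]
  one_mem' := by
    intro k
    refine ⟨1, one_pos, ?_⟩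
    rw [Units.val_one, Bf_one, one_smul]
  inv_mem' := by
    intro B hB k
    obtain ⟨μ, hμ, h1⟩ := hB k
    refine ⟨μ⁻¹, by positivity, ?_⟩
    have h2 : Bf ((B⁻¹ : GL (Fin 3) ℤ) : Matrix (Fin 3) (Fin 3) ℤ)
        (Bf (B : Matrix (Fin 3) (Fin 3) ℤ) (e k)) = e k := by
      rw [← Bf_mul, ← Units.val_mul, inv_mul_cancel, Units.val_one, Bf_one]
    rw [h1, map_smul] at h2
    rw [eq_inv_smul_iff₀ hμ.ne']
    exact h2

theorem xi_mem {A : Matrix (Fin 3) (Fin 3) ℤ} {lam : Fin 3 → ℝ} {e : Bas}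
    (he : ∀ k, Bf A (e k) = lam k • e k) (hlam : Function.Injective lam)
    {B : GL (Fin 3) ℤ} (hB : B ∈ XiPlus A) : B ∈ posDiag e := by
  intro k
  have h1 := diag_of_comm he hlam hB.1 k
  refine ⟨_, ?_, h1⟩
  apply hB.2
  apply Module.End.hasEigenvalue_of_hasEigenvector (x := e k)
  exact ⟨Module.End.mem_eigenspace_iff.2 h1, e.ne_zero k⟩

theorem Bf_inv (B : GL (Fin 3) ℤ) (x : E3) :
    Bf ((B⁻¹ : GL (Fin 3) ℤ) : Matrix (Fin 3) (Fin 3) ℤ)
      (Bf (B : Matrix (Fin 3) (Fin 3) ℤ) x) = x := by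
  rw [← Bf_mul, ← Units.val_mul, inv_mul_cancel, Units.val_one, Bf_one]

theorem Bf_inv' (B : GL (Fin 3) ℤ) (x : E3) :
    Bf (B : Matrix (Fin 3) (Fin 3) ℤ)
      (Bf ((B⁻¹ : GL (Fin 3) ℤ) : Matrix (Fin 3) (Fin 3) ℤ) x) = x := by
  rw [← Bf_mul, ← Units.val_mul, mul_inv_cancel, Units.val_one, Bf_one]

/-- the product of the eigenvalues is one -/
theorem prod_eq_one {e : Bas} {B : GL (Fin 3) ℤ} {μ : Fin 3 → ℝ} (hμ : ∀ k, 0 < μ k)
    (h : ∀ k, Bf (B : Matrix (Fin 3) (Fin 3) ℤ) (e k) = μ k • e k) : ∏ k, μ k = 1 := by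
  have h1 : LinearMap.det (Bf (B : Matrix (Fin 3) (Fin 3) ℤ)) = ∏ k, μ k := by
    rw [← LinearMap.det_toMatrix e]
    have h2 : LinearMap.toMatrix e e (Bf (B : Matrix (Fin 3) (Fin 3) ℤ)) = Matrix.diagonal μ := by
      ext i j
      rw [LinearMap.toMatrix_apply, h, map_smul, Finsupp.smul_apply, e.repr_self,
        Finsupp.single_apply, smul_eq_mul, Matrix.diagonal_apply]
      by_cases hij : i = j
      · subst hij; simp
      · rw [if_neg (fun h => hij h.symm), if_neg hij, mul_zero]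
    rw [h2, Matrix.det_diagonal]
  have h3 : LinearMap.det (Bf (B : Matrix (Fin 3) (Fin 3) ℤ)) =
      (((B : Matrix (Fin 3) (Fin 3) ℤ).det : ℤ) : ℝ) := by
    unfold Bf
    rw [← Matrix.toLin'_apply', LinearMap.det_toLin']
    have := (Int.castRingHom ℝ).map_det (B : Matrix (Fin 3) (Fin 3) ℤ)
    rw [RingHom.mapMatrix_apply] at this
    exact this.symm
  have h4 : IsUnit (B : Matrix (Fin 3) (Fin 3) ℤ).det := by
    rw [← Matrix.isUnit_iff_isUnit_det]
    exact B.isUnit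
  have h5 : 0 < ∏ k, μ k := Finset.prod_pos fun k _ => hμ k
  rcases Int.isUnit_iff.1 h4 with h6 | h6
  · rw [← h1, h3, h6]; norm_num
  · rw [← h1, h3, h6] at h5; norm_num at h5

theorem entry_eq {e : Bas} {M : Matrix (Fin 3) (Fin 3) ℤ} {μ : Fin 3 → ℝ}
    (h : ∀ k, Bf M (e k) = μ k • e k) (i j : Fin 3) :
    (M i j : ℝ) = ∑ k, μ k * e.coord k (Pi.single j 1) * e k i := by
  have h1 : Bf M (Pi.single j 1) i = (M i j : ℝ) := by
    unfold Bf
    rw [Matrix.mulVecLin_apply, Matrix.mulVec_single_one]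
    rfl
  have h2 : Bf M (Pi.single j 1) = ∑ k, (μ k * e.coord k (Pi.single j 1)) • e k := by
    conv_lhs => rw [← e.sum_repr (Bf M (Pi.single j 1))]
    apply Finset.sum_congr rfl
    intro k _
    rw [← coord_Bf h k]
    rfl
  rw [← h1, h2, Finset.sum_apply]
  apply Finset.sum_congr rfl
  intro k _
  rw [Pi.smul_apply, smul_eq_mul]

/-- finitely many matrices in the group have bounded eigenvalues -/
theorem finite_bdd (e : Bas) (C : ℝ) :
    {B : GL (Fin 3) ℤ | ∃ μ : Fin 3 → ℝ, (∀ k, 0 < μ k ∧ μ k ≤ C) ∧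
      ∀ k, Bf (B : Matrix (Fin 3) (Fin 3) ℤ) (e k) = μ k • e k}.Finite := by
  set K : Fin 3 → Fin 3 → ℝ := fun i j => ∑ k, |e.coord k (Pi.single j 1) * e k i| with hK
  let N : Fin 3 → Fin 3 → ℤ := fun i j => ⌈C * K i j⌉
  have h1 : (Set.Icc (fun i j => - N i j) N : Set (Fin 3 → Fin 3 → ℤ)).Finite := Set.finite_Icc _ _
  have h2 := (h1.image (Matrix.of : (Fin 3 → Fin 3 → ℤ) ≃ Matrix (Fin 3) (Fin 3) ℤ)).preimage
    (f := (fun B : GL (Fin 3) ℤ => (B : Matrix (Fin 3) (Fin 3) ℤ)))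
    (Units.val_injective.injOn)
  apply h2.subset
  rintro B ⟨μ, hμ, hB⟩
  have h3 : ∀ i j, |((B : Matrix (Fin 3) (Fin 3) ℤ) i j : ℝ)| ≤ C * K i j := by
    intro i j
    rw [entry_eq hB, hK, Finset.mul_sum]
    apply le_trans (Finset.abs_sum_le_sum_abs _ _)
    apply Finset.sum_le_sum
    intro k _
    rw [mul_assoc, abs_mul, abs_of_pos (hμ k).1]
    exact mul_le_mul_of_nonneg_right (hμ k).2 (abs_nonneg _)
  refine ⟨fun i j => (B : Matrix (Fin 3) (Fin 3) ℤ) i j, ⟨?_, ?_⟩, rfl⟩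
  · intro i j
    have h4 := h3 i j
    have h5 : |((B : Matrix (Fin 3) (Fin 3) ℤ) i j : ℝ)| ≤ (N i j : ℝ) :=
      le_trans h4 (Int.le_ceil _)
    have h6 := (abs_le.1 h5).1
    exact_mod_cast h6
  · intro i j
    have h4 := h3 i j
    have h5 : |((B : Matrix (Fin 3) (Fin 3) ℤ) i j : ℝ)| ≤ (N i j : ℝ) :=
      le_trans h4 (Int.le_ceil _)
    have h6 := (abs_le.1 h5).2
    exact_mod_cast h6

end Pool.Agent.V11212.SL
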