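import Mathlib
import Pool.Agent.V11212.SL.Walk

/-!
The walk on the surface.
-/

set_option autoImplicit false

open Set

namespace Pool.Agent.V11212.SL

variable {J : Type*} {V : J → Set E3} {n : J → (E3 →ₗ[ℝ] ℝ)} {Z : Set E3}

/-- coordinates `s`, `τ` on the plane `π = 0` spanned by `p` and `w` -/
structure Pl (π s τ : E3 →ₗ[ℝ] ℝ) (p w : E3) : Prop where
  dec : ∀ x, π x = 0 → x = s x • p + τ x • w
  πp : π p = 0
  πw : π w = 0
  sp : s p = 1
  τp : τ p = 0
  τw : τ w = 1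

theorem Pl.val {π s τ : E3 →ₗ[ℝ] ℝ} {p w : E3} (H : Pl π s τ p w) (m : E3 →ₗ[ℝ] ℝ) {x : E3}
    (hx : π x = 0) : m x = s x * m p + τ x * m w := by
  conv_lhs => rw [H.dec x hx]
  rw [map_add, map_smul, map_smul, smul_eq_mul, smul_eq_mul]

theorem small_eps {A B : ℝ} (hA : 0 < A) : ∃ ε : ℝ, 0 < ε ∧ ε < 1 ∧ 0 < (1 - ε) * A + ε * B := by
  have h1 : 0 < A + |B| := by positivity
  refine ⟨A / (2 * (A + |B|)), by positivity, ?_, ?_⟩
  · rw [div_lt_one (by positivity)]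
    linarith [abs_nonneg B]
  · set ε := A / (2 * (A + |B|)) with hε
    have h2 : ε * (A + |B|) = A / 2 := by
      rw [hε]
      field_simp
    have h3 : 0 < ε := by positivity
    have h4 : -(ε * |B|) ≤ ε * B := by
      have := neg_abs_le B
      nlinarith
    nlinarith

theorem step {π s τ : E3 →ₗ[ℝ] ℝ} {p w : E3} (H : Pl π s τ p w) (S : Surf V n Z)
    (hZ : ∀ z ∈ Z, π z ≠ 0) {j : J} {q : E3} (hq : q ∈ convexHull ℝ (V j)) (hq0 : π q = 0)
    (hs : 0 < s q) (hτ : 0 ≤ τ q) (hmax : ∀ y ∈ convexHull ℝ (V j), π y = 0 → τ y ≤ τ q)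
    (hβ : n j w < 0) :
    ∃ j' x, x ∈ convexHull ℝ (V j') ∧ π x = 0 ∧ 0 < s x ∧ τ q * s x < τ x * s q ∧
      n j' w < n j w ∧ 1 < n j x := by
  obtain ⟨l, hl, hlq⟩ := exists_supp (S.fin j) (n j) π τ w (S.one j)
    (fun v hv => hZ v (S.sub j hv)) (S.span j) H.πw H.τw hβ hq hq0 hτ hmax
  obtain ⟨a, ha, b, hb, j', hab, ⟨ha1, hb1, l1, ⟨hl1, c, hc, hc1⟩, hl1a, hl1b⟩,
    ⟨ha2, hb2, l2, ⟨hl2, d, hd, hd1⟩, hl2a, hl2b⟩, hwp⟩ :=
    S.nbr j q hq ⟨l, hl, hlq⟩ (fun h => hZ q h hq0)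
  have hcl := off_line hl1a hl1b hc1
  have hdl := off_line hl2a hl2b hd1
  have e1 : n j a = 1 := hull_const (S.one j) ha1
  have e2 : n j b = 1 := hull_const (S.one j) hb1
  have e3 : n j' a = 1 := hull_const (S.one j') ha2
  have e4 : n j' b = 1 := hull_const (S.one j') hb2
  have hnd : 1 < n j d := beyond (S.one j) e1 e2 hwp hc hcl d hd hdl
  have hnc : 1 < n j' c := beyond' (S.one j') e3 e4 hwp hd hdl c hc hcl
  have hq' : q ∈ convexHull ℝ (V j') :=
    (convex_convexHull ℝ (V j')).openSegment_subset ha2 hb2 hab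
  have hnq : n j q = 1 := hull_const (S.one j) hq
  have hnq' : n j' q = 1 := hull_const (S.one j') hq'
  obtain ⟨x0, hx0, hx0', hx0''⟩ := crossing ha2 hb2 hd hab hq0 (hZ a ha) (hZ b hb) e1 e2 hnd
  obtain ⟨y0, hy0, hy0', hy0''⟩ := crossing ha1 hb1 hc hab hq0 (hZ a ha) (hZ b hb) e3 e4 hnc
  obtain ⟨ε, h1, h2, h3⟩ := small_eps (A := s q) (B := s x0) hs
  obtain ⟨δ, k1, k2, k3⟩ := small_eps (A := s q) (B := s y0) hs
  set x := (1 - ε) • q + ε • x0 with hx
  set y := (1 - δ) • q + δ • y0 with hy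
  have hxc : x ∈ convexHull ℝ (V j') := hull_comb hq' hx0 h1.le h2.le
  have hyc : y ∈ convexHull ℝ (V j) := hull_comb hq hy0 k1.le k2.le
  have mx : ∀ m : E3 →ₗ[ℝ] ℝ, m x = (1 - ε) * m q + ε * m x0 := by
    intro m
    rw [hx, map_add, map_smul, map_smul, smul_eq_mul, smul_eq_mul]
  have my : ∀ m : E3 →ₗ[ℝ] ℝ, m y = (1 - δ) * m q + δ * m y0 := by
    intro m
    rw [hy, map_add, map_smul, map_smul, smul_eq_mul, smul_eq_mul]
  have hπx : π x = 0 := by rw [mx, hq0, hx0']; ring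
  have hπy : π y = 0 := by rw [my, hq0, hy0']; ring
  have hsx : 0 < s x := by rw [mx]; exact h3
  have hsy : 0 < s y := by rw [my]; exact k3
  have hnjx : 1 < n j x := by rw [mx, hnq]; nlinarith
  have hnjy : 1 < n j' y := by rw [my, hnq']; nlinarith
  have hnj'x : n j' x = 1 := hull_const (S.one j') hxc
  have hnjy' : n j y = 1 := hull_const (S.one j) hyc
  have E1 := H.val (n j) hq0
  have E2 := H.val (n j') hq0
  have E3' := H.val (n j) hπx
  have E4 := H.val (n j') hπx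
  have E5 := H.val (n j) hπy
  have E6 := H.val (n j') hπy
  rw [hnq] at E1
  rw [hnq'] at E2
  rw [hnj'x] at E4
  rw [hnjy'] at E5
  rw [E3'] at hnjx
  rw [E6] at hnjy
  have hτy := hmax y hyc hπy
  -- abbreviations
  generalize hα : n j p = α at *
  generalize hβ' : n j w = β at *
  generalize hα2 : n j' p = α' at *
  generalize hβ2 : n j' w = β' at *
  have hαpos : 0 < α := by
    have h5 : 0 < s q * α := by nlinarith
    exact (mul_pos_iff_of_pos_left hs).1 h5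
  have h6 : τ y * s q - τ q * s y ≤ 0 := by
    have h7 : α * (τ y * s q - τ q * s y) = τ y - τ q := by
      have : α * (τ y * s q - τ q * s y) = τ y * (s q * α) - τ q * (s y * α) := by ring
      rw [this]
      have g1 : s q * α = 1 - τ q * β := by linarith
      have g2 : s y * α = 1 - τ y * β := by linarith
      rw [g1, g2]
      ring
    by_contra hcon
    push Not at hcon
    have := mul_pos hαpos hcon
    linarith
  have h8 : s q * (α - α') + τ q * (β - β') = 0 := by linarith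
  have h9 : 0 < s x * (α - α') + τ x * (β - β') := by linarith
  have h10 : s y * (α - α') + τ y * (β - β') < 0 := by linarith
  have h11 : (β - β') * (τ y * s q - τ q * s y) < 0 := by
    have : (β - β') * (τ y * s q - τ q * s y) =
        s q * (s y * (α - α') + τ y * (β - β')) - s y * (s q * (α - α') + τ q * (β - β')) := by ring
    rw [this, h8]
    have := mul_neg_of_pos_of_neg hs h10
    linarith
  have h12 : 0 < β - β' := by
    by_contra hcon
    push Not at hcon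
    have := mul_nonneg_of_nonpos_of_nonpos hcon h6
    linarith
  have h13 : 0 < (β - β') * (τ x * s q - τ q * s x) := by
    have : (β - β') * (τ x * s q - τ q * s x) =
        s q * (s x * (α - α') + τ x * (β - β')) - s x * (s q * (α - α') + τ q * (β - β')) := by ring
    rw [this, h8]
    have := mul_pos hs h9
    linarith
  have h14 : 0 < τ x * s q - τ q * s x := (mul_pos_iff_of_pos_left h12).1 h13
  refine ⟨j', x, hxc, hπx, hsx, by linarith, by linarith, ?_⟩
  rw [E3']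
  exact hnjx

/-- exit points of the walk -/
structure Good (V : J → Set E3) (n : J → (E3 →ₗ[ℝ] ℝ)) (π s τ : E3 →ₗ[ℝ] ℝ) (w : E3) (j0 j : J)
    (q : E3) : Prop where
  mem : q ∈ convexHull ℝ (V j)
  zero : π q = 0
  spos : 0 < s q
  τnn : 0 ≤ τ q
  max : ∀ y ∈ convexHull ℝ (V j), π y = 0 → τ y ≤ τ q
  slope : n j w ≤ n j0 w
  low : 1 ≤ n j0 q

theorem exists_exit (S : Surf V n Z) (π τ : E3 →ₗ[ℝ] ℝ) {j : J} {x : E3}
    (hx : x ∈ convexHull ℝ (V j)) (hx0 : π x = 0) :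
    ∃ q ∈ convexHull ℝ (V j), π q = 0 ∧ ∀ y ∈ convexHull ℝ (V j), π y = 0 → τ y ≤ τ q := by
  have hc : IsCompact (convexHull ℝ (V j) ∩ {y | π y = 0}) := by
    have hc0 : IsCompact (convexHull ℝ (V j)) := Set.Finite.isCompact_convexHull (𝕜 := ℝ) (S.fin j)
    apply hc0.inter_right
    exact isClosed_eq π.continuous_of_finiteDimensional continuous_const
  obtain ⟨q, hq, hmax⟩ := hc.exists_isMaxOn ⟨x, hx, hx0⟩
    (τ.continuous_of_finiteDimensional.continuousOn)
  exact ⟨q, hq.1, hq.2, fun y hy hy0 => hmax ⟨hy, hy0⟩⟩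

theorem mono_aux {a b s1 τ1 s2 τ2 : ℝ} (h : 0 ≤ s1 * a + τ1 * b) (h1 : 0 < s1) (h2 : 0 < s2)
    (hb : 0 ≤ b) (ht : τ1 * s2 ≤ τ2 * s1) : 0 ≤ s2 * a + τ2 * b := by
  have h3 : 0 ≤ s1 * (s2 * a + τ2 * b) := by
    have e : s1 * (s2 * a + τ2 * b) = s2 * (s1 * a + τ1 * b) + (τ2 * s1 - τ1 * s2) * b := by ring
    rw [e]
    have := mul_nonneg h2.le h
    have := mul_nonneg (sub_nonneg.2 ht) hb
    linarith
  by_contra hcon
  push Not at hcon
  have := mul_neg_of_pos_of_neg h1 hcon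
  linarith

/-- exit of a polygon from one of its points -/
theorem exit_bounds {π s τ : E3 →ₗ[ℝ] ℝ} {p w : E3} (H : Pl π s τ p w) (S : Surf V n Z) {j : J}
    {x q : E3} (hx : x ∈ convexHull ℝ (V j)) (hx0 : π x = 0) (hs : 0 < s x) (hτ : 0 ≤ τ x)
    (hβ : n j w < 0) (hq : q ∈ convexHull ℝ (V j)) (hq0 : π q = 0) (hxq : τ x ≤ τ q) :
    0 < s q ∧ τ x * s q ≤ τ q * s x := by
  have E1 := H.val (n j) hx0
  have E2 := H.val (n j) hq0
  rw [hull_const (S.one j) hx] at E1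
  rw [hull_const (S.one j) hq] at E2
  generalize n j p = α at *
  generalize n j w = β at *
  have h1 : 0 < s x * α := by nlinarith
  have hα : 0 < α := (mul_pos_iff_of_pos_left hs).1 h1
  have h2 : 0 < s q * α := by nlinarith
  refine ⟨(mul_pos_iff_of_pos_right hα).1 h2, ?_⟩
  have h3 : α * (τ x * s q - τ q * s x) = τ x - τ q := by
    have : α * (τ x * s q - τ q * s x) = τ x * (s q * α) - τ q * (s x * α) := by ring
    rw [this]
    have g1 : s q * α = 1 - τ q * β := by linarith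
    have g2 : s x * α = 1 - τ x * β := by linarith
    rw [g1, g2]
    ring
  by_contra hcon
  push Not at hcon
  have := mul_pos hα (sub_pos.2 hcon)
  linarith

theorem Good.next {π s τ : E3 →ₗ[ℝ] ℝ} {p w : E3} (H : Pl π s τ p w) (S : Surf V n Z)
    (hZ : ∀ z ∈ Z, π z ≠ 0) {j0 j : J} (hβ0 : n j0 w < 0) {q : E3}
    (G : Good V n π s τ w j0 j q) :
    ∃ j' q', Good V n π s τ w j0 j' q' ∧ τ q * s q' < τ q' * s q := by
  have hβ : n j w < 0 := lt_of_le_of_lt G.slope hβ0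
  obtain ⟨j', x, hx, hx0, hsx, hlt, hsl, hbig⟩ := step H S hZ G.mem G.zero G.spos G.τnn G.max hβ
  have hτx : 0 < τ x := by
    have h1 : 0 ≤ τ q * s x := mul_nonneg G.τnn hsx.le
    have h2 : 0 < τ x * s q := lt_of_le_of_lt h1 hlt
    exact (mul_pos_iff_of_pos_right G.spos).1 h2
  obtain ⟨q', hq', hq0', hmax'⟩ := exists_exit S π τ hx hx0
  have hxq := hmax' x hx hx0
  have hβ' : n j' w < 0 := lt_trans hsl hβ
  obtain ⟨hs', ht'⟩ := exit_bounds H S hx hx0 hsx hτx.le hβ' hq' hq0' hxq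
  have hfin : τ q * s q' < τ q' * s q := by
    have h1 : τ q * s x * s q' < τ x * s q * s q' := mul_lt_mul_of_pos_right hlt hs'
    have h2 : τ x * s q' * s q ≤ τ q' * s x * s q := mul_le_mul_of_nonneg_right ht' G.spos.le
    have h3 : (τ q * s q') * s x < (τ q' * s q) * s x := by nlinarith
    exact lt_of_mul_lt_mul_right h3 hsx.le
  refine ⟨j', q', ⟨hq', hq0', hs', le_trans hτx.le hxq, hmax', le_trans hsl.le G.slope, ?_⟩, hfin⟩
  -- `1 ≤ n j0 q'`
  have A1 := H.val (n j0) G.zero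
  have A2 := H.val (n j) G.zero
  have A3 := H.val (n j) hx0
  have A4 := H.val (n j') hx0
  have A5 := H.val (n j0) hq0'
  have A6 := H.val (n j') hq0'
  have hlow := G.low
  rw [A1] at hlow
  rw [hull_const (S.one j) G.mem] at A2
  rw [A3] at hbig
  rw [hull_const (S.one j') hx] at A4
  rw [hull_const (S.one j') hq'] at A6
  rw [A5]
  have B1 : 0 ≤ s q * (n j0 p - n j p) + τ q * (n j0 w - n j w) := by linarith
  have B2 : 0 ≤ s x * (n j p - n j' p) + τ x * (n j w - n j' w) := by linarith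
  have C1 := mono_aux B1 G.spos hs' (sub_nonneg.2 G.slope) hfin.le
  have C2 := mono_aux B2 hsx hs' (sub_nonneg.2 hsl.le) ht'
  linarith

/-- no such walk exists -/
theorem no_walk {π s τ : E3 →ₗ[ℝ] ℝ} {p w : E3} (H : Pl π s τ p w) (S : Surf V n Z)
    (hZ : ∀ z ∈ Z, π z ≠ 0) {N : ℝ}
    (hN : ∀ j, ∀ x ∈ convexHull ℝ (V j), π x = 0 → (s x) ^ 2 * τ x ≤ N)
    (hfin : ∀ δ M : ℝ, 0 < δ → {j | ∃ x ∈ convexHull ℝ (V j), π x = 0 ∧ δ ≤ s x ∧ s x ≤ M ∧
      δ ≤ τ x ∧ τ x ≤ M}.Finite)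
    {j0 : J} (hp : p ∈ convexHull ℝ (V j0)) (hβ0 : n j0 w < 0) : False := by
  classical
  have hp1 : n j0 p = 1 := hull_const (S.one j0) hp
  obtain ⟨q0, hq0, hq00, hmax0⟩ := exists_exit S π τ hp H.πp
  have hτ0 := hmax0 p hp H.πp
  obtain ⟨hs0, -⟩ := exit_bounds H S hp H.πp (by rw [H.sp]; norm_num) (by rw [H.τp]) hβ0 hq0 hq00 hτ0
  rw [H.τp] at hτ0
  have G0 : Good V n π s τ w j0 j0 q0 :=
    ⟨hq0, hq00, hs0, hτ0, hmax0, le_rfl, (hull_const (S.one j0) hq0).ge⟩
  obtain ⟨j1, q1, G1, hlt1⟩ := G0.next H S hZ hβ0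
  have hτ1 : 0 < τ q1 := by
    have h1 : 0 ≤ τ q0 * s q1 := mul_nonneg hτ0 G1.spos.le
    exact (mul_pos_iff_of_pos_right hs0).1 (lt_of_le_of_lt h1 hlt1)
  set t1 := τ q1 / s q1 with ht1
  have ht1pos : 0 < t1 := div_pos hτ1 G1.spos
  -- the ratio depends only on the polygon
  have huniq : ∀ j q q', Good V n π s τ w j0 j q → Good V n π s τ w j0 j q' →
      τ q / s q = τ q' / s q' := by
    intro j q q' G G'
    have h1 : τ q = τ q' := le_antisymm (G'.max q G.mem G.zero) (G.max q' G'.mem G'.zero)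
    have E1 := H.val (n j) G.zero
    have E2 := H.val (n j) G'.zero
    rw [hull_const (S.one j) G.mem] at E1
    rw [hull_const (S.one j) G'.mem] at E2
    have hβ : n j w < 0 := lt_of_le_of_lt G.slope hβ0
    have h2 : n j p ≠ 0 := by
      intro h0
      rw [h0] at E1
      have := G.τnn
      nlinarith
    have h3 : s q * n j p = s q' * n j p := by
      rw [h1] at E1
      linarith
    rw [h1, mul_right_cancel₀ h2 h3]
  let φ : J → ℝ := fun j => if h : ∃ q, Good V n π s τ w j0 j q then τ h.choose / s h.choose else 0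
  have hφ : ∀ j q, Good V n π s τ w j0 j q → φ j = τ q / s q := by
    intro j q G
    have hex : ∃ q, Good V n π s τ w j0 j q := ⟨q, G⟩
    simp only [φ, dif_pos hex]
    exact huniq j _ _ hex.choose_spec G
  let R : Set ℝ := {ρ | ∃ j q, Good V n π s τ w j0 j q ∧ ρ = τ q / s q ∧ t1 ≤ ρ}
  have hbd : ∀ j q, Good V n π s τ w j0 j q → t1 ≤ τ q / s q →
      1 ≤ s q ∧ s q ≤ N / t1 ∧ t1 ≤ τ q ∧ τ q ≤ N := by
    intro j q G ht
    have E := H.val (n j0) G.zero
    have hl := G.low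
    rw [E, hp1, mul_one] at hl
    have h1 : 1 ≤ s q := by
      have h5 := mul_nonneg G.τnn (neg_nonneg.2 hβ0.le)
      linarith
    have h2 : t1 * s q ≤ τ q := by
      rw [le_div_iff₀ G.spos] at ht
      exact ht
    have h3 : t1 ≤ τ q := by nlinarith
    have h4 := hN j q G.mem G.zero
    have h5 : (s q) ^ 2 * (t1 * s q) ≤ N := le_trans (mul_le_mul_of_nonneg_left h2 (by positivity)) h4
    have h6 : s q ≤ (s q) ^ 3 := by
      have : 1 ≤ (s q) ^ 2 := one_le_pow₀ h1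
      nlinarith
    refine ⟨h1, ?_, h3, ?_⟩
    · rw [le_div_iff₀ ht1pos]
      have : s q * t1 ≤ (s q) ^ 3 * t1 := mul_le_mul_of_nonneg_right h6 ht1pos.le
      have e : (s q) ^ 2 * (t1 * s q) = (s q) ^ 3 * t1 := by ring
      linarith
    · have : 1 ≤ (s q) ^ 2 := one_le_pow₀ h1
      nlinarith [G.τnn]
  have hRfin : R.Finite := by
    have h1 := (hfin (min 1 t1) (max (N / t1) N) (by positivity)).image φ
    apply h1.subset
    rintro ρ ⟨j, q, G, rfl, ht⟩
    obtain ⟨b1, b2, b3, b4⟩ := hbd j q G ht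
    exact ⟨j, ⟨q, G.mem, G.zero, le_trans (min_le_left _ _) b1, le_trans b2 (le_max_left _ _),
      le_trans (min_le_right _ _) b3, le_trans b4 (le_max_right _ _)⟩, hφ j q G⟩
  have hRne : R.Nonempty := ⟨t1, j1, q1, G1, rfl, le_rfl⟩
  obtain ⟨ρ, ⟨j, q, G, rfl, ht⟩, hρ⟩ := Set.exists_max_image R id hRfin hRne
  obtain ⟨j', q', G', hlt⟩ := G.next H S hZ hβ0
  have h1 : τ q / s q < τ q' / s q' := by
    rw [div_lt_div_iff₀ G.spos G'.spos]
    exact hlt
  have h2 := hρ (τ q' / s q') ⟨j', q', G', rfl, le_trans ht h1.le⟩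
  simp only [id] at h2
  linarith

end Pool.Agent.V11212.SL
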