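import Mathlib
import Pool.Agent.V11212.SL.Grp
import Pool.Agent.V11212.SL.Gen
import Pool.Agent.V11212.SL.Main

/-!
Candidates for fundamental domains of sails, and the main theorem.
-/

set_option autoImplicit false

open Set Matrix

namespace Pool.Agent.V11212.SL

/-- `B1, B2` is a basis of the free abelian group `Ξ₊(A)` -/
def IsXiBasis (A : Matrix (Fin 3) (Fin 3) ℤ) (B1 B2 : GL (Fin 3) ℤ) : Prop :=
  B1 ∈ XiPlus A ∧ B2 ∈ XiPlus A ∧ (∀ X ∈ XiPlus A, ∃ n m : ℤ, X = B1 ^ n * B2 ^ m) ∧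
    Function.Injective (fun g : ℤ × ℤ => B1 ^ g.1 * B2 ^ g.2)

/-- the matrix `B_{n,m}` -/
def Bnm (B1 B2 : GL (Fin 3) ℤ) (n m : ℤ) : Matrix (Fin 3) (Fin 3) ℤ :=
  ((B1 ^ n * B2 ^ m : GL (Fin 3) ℤ) : Matrix (Fin 3) (Fin 3) ℤ)

/-- A candidate, given by the set `F` of the vertex sets of its faces; the closed face with vertex
set `S` is the convex hull of `S`. -/
structure Candidate (B1 B2 : GL (Fin 3) ℤ) (F : Finset (Finset (Fin 3 → ℤ))) : Prop where
  /-- the union of the closed faces is homeomorphic to a closed disk -/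
  disk : Nonempty ((Metric.closedBall (0 : EuclideanSpace ℝ (Fin 2)) 1) ≃ₜ
    (⋃ S ∈ F, convexHull ℝ (castSet S) : Set E3))
  /-- every face lies in some closed polygon `B_{n,m}(T)` of the surface -/
  torus : ∀ S ∈ F, ∃ T ∈ F, IsPolygon T ∧ ∃ n m : ℤ,
    convexHull ℝ (castSet S) ⊆ convexHull ℝ (move (Bnm B1 B2 n m) T)
  /-- no plane of a polygon passes through the origin -/
  plane : ∀ T ∈ F, IsPolygon T → (0 : E3) ∉ affineSpan ℝ (castSet T)
  /-- every boundary point of a polygon of the surface, other than integer points, lies in an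
  open edge along which the polygon meets another one, and the dihedral angle is well-placed -/
  dihedral : ∀ T ∈ F, IsPolygon T → ∀ n m : ℤ,
    ∀ q ∈ intrinsicFrontier ℝ (convexHull ℝ (move (Bnm B1 B2 n m) T)), (∀ v, q ≠ castV v) →
    ∃ a b : Fin 3 → ℤ, ∃ T' ∈ F, IsPolygon T' ∧ ∃ n' m' : ℤ,
      q ∈ openSegment ℝ (castV a) (castV b) ∧
      OnSide (move (Bnm B1 B2 n m) T) (castV a) (castV b) ∧
      OnSide (move (Bnm B1 B2 n' m') T') (castV a) (castV b) ∧
      WellPlaced (move (Bnm B1 B2 n m) T) (move (Bnm B1 B2 n' m') T') (castV a) (castV b)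

/-- supported points are in the relative boundary -/
theorem supp_frontier {V : Set E3} {l : E3 →ₗ[ℝ] ℝ} (hl : Supp V l) {q : E3}
    (hq : q ∈ convexHull ℝ V) (hlq : l q = 0) : q ∈ intrinsicFrontier ℝ (convexHull ℝ V) := by
  obtain ⟨hl1, c, hc, hc1⟩ := hl
  have hcV : c ∈ convexHull ℝ V := subset_convexHull ℝ V hc
  rw [← intrinsicClosure_sdiff_intrinsicInterior]
  refine ⟨subset_intrinsicClosure hq, ?_⟩
  rintro ⟨y, hy, rfl⟩
  rw [mem_interior_iff_mem_nhds] at hy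
  have hcA : c ∈ affineSpan ℝ (convexHull ℝ V) := subset_affineSpan ℝ _ hcV
  let f : ℝ → affineSpan ℝ (convexHull ℝ V) := fun t =>
    ⟨AffineMap.lineMap (y : E3) c t, AffineMap.lineMap_mem t y.2 hcA⟩
  have hf : Continuous f := by
    rw [continuous_induced_rng]
    exact AffineMap.lineMap_continuous
  have h0 : f 0 = y := by
    apply Subtype.ext
    exact AffineMap.lineMap_apply_zero _ _
  have h1 : f ⁻¹' (Subtype.val ⁻¹' convexHull ℝ V) ∈ nhds (0 : ℝ) := by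
    apply hf.continuousAt.preimage_mem_nhds
    rw [h0]
    exact hy
  obtain ⟨ε, hε, hball⟩ := Metric.mem_nhds_iff.1 h1
  have h2 : (-(ε / 2)) ∈ Metric.ball (0 : ℝ) ε := by
    rw [Metric.mem_ball, Real.dist_eq, sub_zero, abs_neg, abs_of_pos (by positivity)]
    linarith
  have h3 : ((f (-(ε / 2)) : affineSpan ℝ (convexHull ℝ V)) : E3) ∈ convexHull ℝ V := hball h2
  have h4 := hull_le hl1 h3
  have h5 : ((f (-(ε / 2)) : affineSpan ℝ (convexHull ℝ V)) : E3) =
      (-(ε / 2)) • (c - (y : E3)) + (y : E3) := by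
    show AffineMap.lineMap (y : E3) c (-(ε / 2)) = _
    rw [AffineMap.lineMap_apply]
    rfl
  rw [h5, map_add, map_smul, map_sub, hlq, smul_eq_mul] at h4
  nlinarith

/-- index set of the polygons of the surface -/
abbrev Idx (F : Finset (Finset (Fin 3 → ℤ))) : Type :=
  (ℤ × ℤ) × {T : Finset (Fin 3 → ℤ) // T ∈ F ∧ IsPolygon T}

/-- the vertex sets of the polygons of the surface -/
def Vs (B1 B2 : GL (Fin 3) ℤ) (F : Finset (Finset (Fin 3 → ℤ))) (j : Idx F) : Set E3 :=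
  move (Bnm B1 B2 j.1.1 j.1.2) j.2.1

/-- the inverse of `B_{n,m}` -/
def Binv (B1 B2 : GL (Fin 3) ℤ) (n m : ℤ) : Matrix (Fin 3) (Fin 3) ℤ :=
  (((B1 ^ n * B2 ^ m)⁻¹ : GL (Fin 3) ℤ) : Matrix (Fin 3) (Fin 3) ℤ)

/-- the functionals of the planes of the polygons of the surface -/
noncomputable def Ns (B1 B2 : GL (Fin 3) ℤ) (F : Finset (Finset (Fin 3 → ℤ)))
    (r : {T : Finset (Fin 3 → ℤ) // T ∈ F ∧ IsPolygon T} → (Fin 3 → ℚ)) (j : Idx F) :
    E3 →ₗ[ℝ] ℝ :=
  (row (r j.2)) ∘ₗ (Bf (Binv B1 B2 j.1.1 j.1.2))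

/-- nonzero integer vectors -/
def Zs : Set E3 := castV '' {v | v ≠ 0}

theorem Zs_countable : Zs.Countable := (Set.to_countable _).image _

theorem surf_of {B1 B2 : GL (Fin 3) ℤ} {F : Finset (Finset (Fin 3 → ℤ))}
    (hF : Candidate B1 B2 F)
    (r : {T : Finset (Fin 3 → ℤ) // T ∈ F ∧ IsPolygon T} → (Fin 3 → ℚ))
    (hr : ∀ T, ∀ v ∈ T.1, ∑ i, r T i * (v i : ℚ) = 1) :
    Surf (Vs B1 B2 F) (Ns B1 B2 F r) Zs := by
  have hone : ∀ j : Idx F, ∀ v ∈ Vs B1 B2 F j, Ns B1 B2 F r j v = 1 := by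
    intro j v hv
    unfold Vs at hv
    rw [move_eq] at hv
    obtain ⟨_, ⟨u, hu, rfl⟩, rfl⟩ := hv
    unfold Ns
    rw [LinearMap.comp_apply]
    have h1 : Bf (Binv B1 B2 j.1.1 j.1.2) (Bf (Bnm B1 B2 j.1.1 j.1.2) (castV u)) = castV u :=
      Bf_inv _ _
    rw [h1, row_castV, hr j.2 u hu]
    norm_num
  refine ⟨?_, hone, ?_, ?_, ?_⟩
  · intro j
    exact (Finset.finite_toSet _).image _
  · intro j l hl
    have h1 : l ∘ₗ Bf (Bnm B1 B2 j.1.1 j.1.2) = 0 := by
      apply poly_span j.2.2.2 (hF.plane _ j.2.2.1 j.2.2.2)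
      intro v hv
      rw [LinearMap.comp_apply]
      apply hl
      unfold Vs
      rw [move_eq]
      exact ⟨v, hv, rfl⟩
    apply LinearMap.ext
    intro x
    have h2 : Bf (Bnm B1 B2 j.1.1 j.1.2) (Bf (Binv B1 B2 j.1.1 j.1.2) x) = x := Bf_inv' _ _
    have h3 := congrArg (fun f => f (Bf (Binv B1 B2 j.1.1 j.1.2) x)) h1
    simp only [LinearMap.comp_apply] at h3
    rw [h2] at h3
    exact h3
  · intro j v hv
    have h1 := hone j v hv
    unfold Vs move at hv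
    obtain ⟨u, hu, rfl⟩ := hv
    refine ⟨_, ?_, rfl⟩
    intro h0
    have h2 : Ns B1 B2 F r j (castV (Bnm B1 B2 j.1.1 j.1.2 *ᵥ u)) = 1 := h1
    rw [h0, castV_zero, map_zero] at h2
    norm_num at h2
  · intro j q hq hsupp hqZ
    obtain ⟨l, hl, hlq⟩ := hsupp
    have hq1 : Ns B1 B2 F r j q = 1 := hull_const (hone j) hq
    have hnot : ∀ v, q ≠ castV v := by
      rintro v rfl
      apply hqZ
      refine ⟨v, ?_, rfl⟩
      intro h0
      rw [h0, castV_zero, map_zero] at hq1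
      norm_num at hq1
    obtain ⟨a, b, T', hT', hT'p, n', m', h1, h2, h3, h4⟩ :=
      hF.dihedral j.2.1 j.2.2.1 j.2.2.2 j.1.1 j.1.2 q (supp_frontier hl hq hlq) hnot
    have hZ : ∀ a : Fin 3 → ℤ, castV a ∈ convexHull ℝ (Vs B1 B2 F j) → castV a ∈ Zs := by
      intro a ha
      have ha1 : Ns B1 B2 F r j (castV a) = 1 := hull_const (hone j) ha
      refine ⟨a, ?_, rfl⟩
      intro h0
      rw [h0, castV_zero, map_zero] at ha1
      norm_num at ha1
    exact ⟨castV a, hZ a h2.1, castV b, hZ b h2.2.1, ((n', m'), ⟨T', hT', hT'p⟩), h1, h2, h3, h4⟩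

/-- a bound for the coordinates of the closed faces -/
theorem exists_bound (e : Bas) (F : Finset (Finset (Fin 3 → ℤ))) :
    ∃ R : ℝ, 0 < R ∧ ∀ T ∈ F, ∀ y ∈ convexHull ℝ (castSet T), ∀ k, |e.coord k y| ≤ R := by
  refine ⟨1 + ∑ T ∈ F, ∑ v ∈ T, ∑ k, |e.coord k (castV v)|, by positivity, ?_⟩
  intro T hT y hy k
  have h1 : ∀ v ∈ castSet T, |e.coord k v| ≤ 1 + ∑ T ∈ F, ∑ v ∈ T, ∑ k, |e.coord k (castV v)| := by
    rintro _ ⟨v, hv, rfl⟩
    have g1 : |e.coord k (castV v)| ≤ ∑ k, |e.coord k (castV v)| :=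
      Finset.single_le_sum (f := fun k => |e.coord k (castV v)|) (fun _ _ => abs_nonneg _)
        (Finset.mem_univ k)
    have g2 : ∑ k, |e.coord k (castV v)| ≤ ∑ v ∈ T, ∑ k, |e.coord k (castV v)| :=
      Finset.single_le_sum (f := fun v => ∑ k, |e.coord k (castV v)|)
        (fun _ _ => Finset.sum_nonneg fun _ _ => abs_nonneg _) hv
    have g3 : ∑ v ∈ T, ∑ k, |e.coord k (castV v)| ≤ ∑ T ∈ F, ∑ v ∈ T, ∑ k, |e.coord k (castV v)| :=
      Finset.single_le_sum (f := fun T : Finset (Fin 3 → ℤ) => ∑ v ∈ T, ∑ k, |e.coord k (castV v)|)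
        (fun _ _ => Finset.sum_nonneg fun _ _ => Finset.sum_nonneg fun _ _ => abs_nonneg _) hT
    linarith
  rw [abs_le]
  constructor
  · have h2 : ∀ v ∈ castSet T, (-(e.coord k)) v ≤ 1 + ∑ T ∈ F, ∑ v ∈ T, ∑ k, |e.coord k (castV v)| := by
      intro v hv
      rw [LinearMap.neg_apply]
      have := (abs_le.1 (h1 v hv)).1
      linarith
    have h3 := hull_le h2 hy
    rw [LinearMap.neg_apply] at h3
    linarith
  · exact hull_le (fun v hv => (abs_le.1 (h1 v hv)).2) hy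

theorem Bnm_zero (B1 B2 : GL (Fin 3) ℤ) : Bnm B1 B2 0 0 = 1 := by
  unfold Bnm
  rw [zpow_zero, zpow_zero, mul_one, Units.val_one]

theorem move_one (T : Finset (Fin 3 → ℤ)) : move 1 T = castSet T := by
  unfold move castSet
  apply Set.image_congr
  intro v _
  rw [Matrix.one_mulVec]

theorem hull_move {M : Matrix (Fin 3) (Fin 3) ℤ} {T : Finset (Fin 3 → ℤ)} {x : E3}
    (hx : x ∈ convexHull ℝ (move M T)) : ∃ y ∈ convexHull ℝ (castSet T), Bf M y = x := by
  rw [move_eq, ← LinearMap.image_convexHull] at hx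
  exact hx

theorem third (k1 k2 k3 : Fin 3) (h12 : k1 ≠ k2) (h13 : k1 ≠ k3) (h23 : k2 ≠ k3) (i : Fin 3) :
    i = k1 ∨ i = k2 ∨ i = k3 := by
  omega

theorem prod3 (k1 k2 k3 : Fin 3) (h12 : k1 ≠ k2) (h13 : k1 ≠ k3) (h23 : k2 ≠ k3)
    (f : Fin 3 → ℝ) : ∏ k, f k = f k1 * f k2 * f k3 := by
  have h : (Finset.univ : Finset (Fin 3)) = {k1, k2, k3} := by
    ext i
    simp only [Finset.mem_univ, Finset.mem_insert, Finset.mem_singleton, true_iff]
    exact third k1 k2 k3 h12 h13 h23 i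
  rw [h, Finset.prod_insert (by simp [h12, h13]), Finset.prod_insert (by simp [h23]),
    Finset.prod_singleton]
  ring

theorem eig {A : Matrix (Fin 3) (Fin 3) ℤ} {lam : Fin 3 → ℝ} {e : Bas}
    (he : ∀ k, Bf A (e k) = lam k • e k) (hlam : Function.Injective lam)
    {B1 B2 : GL (Fin 3) ℤ} (hB : IsXiBasis A B1 B2) :
    ∃ μ : ℤ × ℤ → Fin 3 → ℝ, (∀ g k, 0 < μ g k) ∧
      ∀ g k, Bf (Bnm B1 B2 g.1 g.2) (e k) = μ g k • e k := by
  have h : ∀ g : ℤ × ℤ, B1 ^ g.1 * B2 ^ g.2 ∈ posDiag e := fun g =>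
    (posDiag e).mul_mem ((posDiag e).zpow_mem (xi_mem he hlam hB.1) _)
      ((posDiag e).zpow_mem (xi_mem he hlam hB.2.1) _)
  choose μ hμ using h
  exact ⟨μ, fun g k => (hμ g k).1, fun g k => (hμ g k).2⟩

/-- no polygon meets an eigenplane -/
theorem coord_ne_zero {A : Matrix (Fin 3) (Fin 3) ℤ}
    (hirr : Irreducible (A.map (Int.cast : ℤ → ℚ)).charpoly) {lam : Fin 3 → ℝ} {e : Bas}
    (he : ∀ k, Bf A (e k) = lam k • e k) {B1 B2 : GL (Fin 3) ℤ} (hB : IsXiBasis A B1 B2)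
    {F : Finset (Finset (Fin 3 → ℤ))} (hF : Candidate B1 B2 F) {T : Finset (Fin 3 → ℤ)}
    (hT : T ∈ F) (hTp : IsPolygon T) (k1 k2 k3 : Fin 3) (h12 : k1 ≠ k2) (h13 : k1 ≠ k3)
    (h23 : k2 ≠ k3) {x : E3} (hx : x ∈ convexHull ℝ (castSet T)) : e.coord k3 x ≠ 0 := by
  intro hx0
  have hlam := lam_inj hirr he
  obtain ⟨μ, hμ, hμ'⟩ := eig he hlam hB
  have hnor : ∀ T : {T : Finset (Fin 3 → ℤ) // T ∈ F ∧ IsPolygon T},
      ∃ r : Fin 3 → ℚ, ∀ v ∈ T.1, ∑ i, r i * (v i : ℚ) = 1 := fun T =>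
    exists_normal (poly_nonempty T.2.2) (hF.plane T.1 T.2.1 T.2.2)
  choose r hr using hnor
  have S := surf_of hF r hr
  let j0 : Idx F := ((0, 0), ⟨T, hT, hTp⟩)
  have hV0 : Vs B1 B2 F j0 = castSet T := by
    unfold Vs
    show move (Bnm B1 B2 0 0) T = _
    rw [Bnm_zero, move_one]
  have hZc : ∀ z ∈ Zs, ∀ k, e.coord k z ≠ 0 := by
    rintro _ ⟨v, hv, rfl⟩ k
    exact int_coord_ne hirr he hv k
  have hx' : x ∈ convexHull ℝ (Vs B1 B2 F j0) := by rw [hV0]; exact hx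
  have hinj : ∀ x, e.coord k1 x = 0 → e.coord k2 x = 0 → e.coord k3 x = 0 → x = 0 := by
    intro x g1 g2 g3
    apply ext_coord e
    intro i
    rw [map_zero]
    rcases third k1 k2 k3 h12 h13 h23 i with h | h | h
    · rw [h, g1]
    · rw [h, g2]
    · rw [h, g3]
  obtain ⟨p, hp, hp3, hp1, hp2, hpZ⟩ := exists_generic Zs_countable (e.coord k1) (e.coord k2)
    (e.coord k3) (Ns B1 B2 F r j0) (S.one j0) (S.sub j0) (fun z hz => hZc z hz k1)
    (fun z hz => hZc z hz k2) (fun z hz => hZc z hz k3) hinj (S.span j0) hx' hx0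
  -- the sign
  have hr0 : r ⟨T, hT, hTp⟩ ≠ 0 := by
    intro h0
    obtain ⟨v, hv⟩ := poly_nonempty hTp
    have := hr ⟨T, hT, hTp⟩ v hv
    rw [h0] at this
    simp at this
  have hnek : Ns B1 B2 F r j0 (e k3) ≠ 0 := by
    have h1 : Ns B1 B2 F r j0 (e k3) = row (r ⟨T, hT, hTp⟩) (e k3) := by
      unfold Ns Binv
      rw [LinearMap.comp_apply]
      have : ((((B1 ^ (0 : ℤ) * B2 ^ (0 : ℤ))⁻¹ : GL (Fin 3) ℤ)) : Matrix (Fin 3) (Fin 3) ℤ) = 1 := by
        rw [zpow_zero, zpow_zero, mul_one, inv_one, Units.val_one]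
      show row (r ⟨T, hT, hTp⟩) (Bf _ (e k3)) = _
      rw [this, Bf_one]
    rw [h1]
    exact row_ne hirr he hr0 k3
  obtain ⟨ε, hε, hεn⟩ : ∃ ε : ℝ, ε * ε = 1 ∧ Ns B1 B2 F r j0 (ε • e k3) < 0 := by
    rcases lt_or_gt_of_ne hnek with h | h
    · exact ⟨1, by norm_num, by rw [one_smul]; exact h⟩
    · refine ⟨-1, by norm_num, ?_⟩
      rw [map_smul, smul_eq_mul]
      linarith
  have c11 := coord_self e k1
  have c22 := coord_self e k2
  have c33 := coord_self e k3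
  have c13 : e.coord k1 (e k3) = 0 := coord_ne e (fun h => h13 h.symm)
  have c23 : e.coord k2 (e k3) = 0 := coord_ne e (fun h => h23 h.symm)
  set π : E3 →ₗ[ℝ] ℝ := (e.coord k1 p) • e.coord k2 - (e.coord k2 p) • e.coord k1 with hπ
  set s : E3 →ₗ[ℝ] ℝ := (e.coord k1 p)⁻¹ • e.coord k1 with hs
  set τ : E3 →ₗ[ℝ] ℝ := ε • e.coord k3 with hτ
  have hπx : ∀ x, π x = e.coord k1 p * e.coord k2 x - e.coord k2 p * e.coord k1 x := fun x => rfl
  have hsx : ∀ x, s x = (e.coord k1 p)⁻¹ * e.coord k1 x := fun x => rfl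
  have hτx : ∀ x, τ x = ε * e.coord k3 x := fun x => rfl
  -- coordinates on the plane
  have hc1 : ∀ x, e.coord k1 x = e.coord k1 p * s x := by
    intro x
    rw [hsx, ← mul_assoc, mul_inv_cancel₀ hp1, one_mul]
  have hc2 : ∀ x, π x = 0 → e.coord k2 x = e.coord k2 p * s x := by
    intro x hx
    rw [hπx] at hx
    rw [hsx]
    field_simp
    linarith
  have hc3 : ∀ x, e.coord k3 x = ε * τ x := by
    intro x
    rw [hτx, ← mul_assoc, hε, one_mul]
  have H : Pl π s τ p (ε • e k3) := by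
    refine ⟨?_, ?_, ?_, ?_, ?_, ?_⟩
    · intro x hx
      apply ext_coord e
      intro i
      rw [map_add, map_smul, map_smul, map_smul, smul_eq_mul, smul_eq_mul, smul_eq_mul]
      rcases third k1 k2 k3 h12 h13 h23 i with h | h | h
      · rw [h, c13, hc1 x]
        ring
      · rw [h, c23, hc2 x hx]
        ring
      · rw [h, c33, hp3, hc3 x]
        ring
    · rw [hπx]
      ring
    · rw [hπx, map_smul, map_smul, c13, c23]
      simp
    · rw [hsx, inv_mul_cancel₀ hp1]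
    · rw [hτx, hp3, mul_zero]
    · rw [hτx, map_smul, c33, smul_eq_mul, mul_one, hε]
  obtain ⟨R, hR, hRb⟩ := exists_bound e F
  have hprod : ∀ g, μ g k1 * μ g k2 * μ g k3 = 1 := by
    intro g
    rw [← prod3 k1 k2 k3 h12 h13 h23]
    exact prod_eq_one (hμ g) (hμ' g)
  have hp12 : 0 < |e.coord k1 p * e.coord k2 p| := abs_pos.2 (mul_ne_zero hp1 hp2)
  have hεabs : |ε| = 1 := by
    have h1 : |ε| * |ε| = 1 := by rw [← abs_mul, hε, abs_one]
    have h2 := abs_nonneg ε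
    nlinarith
  -- the norm is bounded on the surface
  have hN : ∀ j, ∀ x ∈ convexHull ℝ (Vs B1 B2 F j), π x = 0 →
      (s x) ^ 2 * τ x ≤ R * R * R / |e.coord k1 p * e.coord k2 p| := by
    intro j x hx hx0
    obtain ⟨y, hy, rfl⟩ := hull_move hx
    rw [le_div_iff₀ hp12]
    set x := Bf (Bnm B1 B2 j.1.1 j.1.2) y with hxdef
    have e1 : (s x) ^ 2 * τ x * |e.coord k1 p * e.coord k2 p| ≤
        |e.coord k1 x * e.coord k2 x * e.coord k3 x| := by
      rw [hc1 x, hc2 x hx0, hc3 x]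
      have : e.coord k1 p * s x * (e.coord k2 p * s x) * (ε * τ x) =
          ((s x) ^ 2 * τ x) * (e.coord k1 p * e.coord k2 p) * ε := by ring
      rw [this, abs_mul _ ε, hεabs, mul_one, abs_mul ((s x) ^ 2 * τ x)]
      exact mul_le_mul_of_nonneg_right (le_abs_self _) hp12.le
    have e2 : |e.coord k1 x * e.coord k2 x * e.coord k3 x| =
        |e.coord k1 y| * |e.coord k2 y| * |e.coord k3 y| := by
      rw [hxdef, coord_Bf (hμ' j.1), coord_Bf (hμ' j.1), coord_Bf (hμ' j.1)]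
      have : μ j.1 k1 * e.coord k1 y * (μ j.1 k2 * e.coord k2 y) * (μ j.1 k3 * e.coord k3 y) =
          (μ j.1 k1 * μ j.1 k2 * μ j.1 k3) * (e.coord k1 y * e.coord k2 y * e.coord k3 y) := by ring
      rw [this, hprod, one_mul, abs_mul, abs_mul]
    rw [e2] at e1
    refine le_trans e1 ?_
    have b1 := hRb _ j.2.2.1 y hy k1
    have b2 := hRb _ j.2.2.1 y hy k2
    have b3 := hRb _ j.2.2.1 y hy k3
    exact mul_le_mul (mul_le_mul b1 b2 (abs_nonneg _) hR.le) b3 (abs_nonneg _) (by positivity)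
  -- local finiteness
  have hfin : ∀ δ M : ℝ, 0 < δ → {j | ∃ x ∈ convexHull ℝ (Vs B1 B2 F j), π x = 0 ∧ δ ≤ s x ∧
      s x ≤ M ∧ δ ≤ τ x ∧ τ x ≤ M}.Finite := by
    intro δ M hδ
    have hinjg := hB.2.2.2
    set δ' := min (|e.coord k1 p| * δ) (min (|e.coord k2 p| * δ) δ) with hδ'
    have hδ'pos : 0 < δ' := by
      have := abs_pos.2 hp1
      have := abs_pos.2 hp2
      positivity
    have hfg : {g : ℤ × ℤ | ∀ k, δ' ≤ μ g k * R}.Finite := by
      have h1 := (finite_bdd e (R / δ')).preimage (f := fun g : ℤ × ℤ => (B1 ^ g.1 * B2 ^ g.2)⁻¹)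
        ((inv_injective.comp hinjg).injOn)
      apply h1.subset
      intro g hg
      refine ⟨fun k => (μ g k)⁻¹, ?_, ?_⟩
      · intro k
        have h2 := hμ g k
        refine ⟨by positivity, ?_⟩
        have h3 := hg k
        rw [inv_le_comm₀ h2 (by positivity), inv_div]
        rw [div_le_iff₀ hR]
        exact h3
      · intro k
        have h2 := hμ' g k
        have h3 : Bf (Binv B1 B2 g.1 g.2) (Bf (Bnm B1 B2 g.1 g.2) (e k)) = e k := Bf_inv _ _
        rw [h2, map_smul] at h3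
        rw [eq_inv_smul_iff₀ (hμ g k).ne']
        exact h3
    have hall : {j : Idx F | j.1 ∈ {g : ℤ × ℤ | ∀ k, δ' ≤ μ g k * R}}.Finite := by
      have : Finite {T : Finset (Fin 3 → ℤ) // T ∈ F ∧ IsPolygon T} := by
        apply Finite.of_injective
          (fun T : {T : Finset (Fin 3 → ℤ) // T ∈ F ∧ IsPolygon T} => (⟨T.1, T.2.1⟩ : F))
        intro T T' h
        apply Subtype.ext
        exact congrArg (fun z : F => z.1) h
      have h1 := hfg.prod (Set.finite_univ (α := {T : Finset (Fin 3 → ℤ) // T ∈ F ∧ IsPolygon T}))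
      apply h1.subset
      intro j hj
      exact ⟨hj, trivial⟩
    apply hall.subset
    rintro j ⟨x, hx, hx0, a1, a2, a3, a4⟩
    obtain ⟨y, hy, rfl⟩ := hull_move hx
    set x := Bf (Bnm B1 B2 j.1.1 j.1.2) y with hxdef
    have hlow : ∀ k, δ' ≤ |e.coord k x| := by
      intro k
      rcases third k1 k2 k3 h12 h13 h23 k with h | h | h
      · rw [h, hc1 x, abs_mul]
        refine le_trans (min_le_left _ _) ?_
        exact mul_le_mul_of_nonneg_left (le_trans a1 (le_abs_self _)) (abs_nonneg _)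
      · rw [h, hc2 x hx0, abs_mul]
        refine le_trans (le_trans (min_le_right _ _) (min_le_left _ _)) ?_
        exact mul_le_mul_of_nonneg_left (le_trans a1 (le_abs_self _)) (abs_nonneg _)
      · rw [h, hc3 x, abs_mul, hεabs, one_mul]
        refine le_trans (le_trans (min_le_right _ _) (min_le_right _ _)) ?_
        exact le_trans a3 (le_abs_self _)
    intro k
    refine le_trans (hlow k) ?_
    rw [hxdef, coord_Bf (hμ' j.1), abs_mul, abs_of_pos (hμ j.1 k)]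
    exact mul_le_mul_of_nonneg_left (hRb _ j.2.2.1 y hy k) (hμ j.1 k).le
  exact no_walk H S (fun z hz => hpZ z hz) hN hfin hp hεn

/-- conditions imply that the vertices lie in one invariant cone -/
theorem main {A : Matrix (Fin 3) (Fin 3) ℤ}
    (hirr : Irreducible (A.map (Int.cast : ℤ → ℚ)).charpoly) {lam : Fin 3 → ℝ} {e : Bas}
    (he : ∀ k, Bf A (e k) = lam k • e k) {B1 B2 : GL (Fin 3) ℤ} (hB : IsXiBasis A B1 B2)
    {F : Finset (Finset (Fin 3 → ℤ))} (hF : Candidate B1 B2 F) :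
    ∃ ε : Fin 3 → ℝ, (∀ k, ε k = 1 ∨ ε k = -1) ∧
      ∀ x ∈ (⋃ S ∈ F, convexHull ℝ (castSet S) : Set E3), ∀ k, 0 < ε k * e.coord k x := by
  have hlam := lam_inj hirr he
  obtain ⟨μ, hμ, hμ'⟩ := eig he hlam hB
  have hne : ∀ T ∈ F, IsPolygon T → ∀ y ∈ convexHull ℝ (castSet T), ∀ k, e.coord k y ≠ 0 := by
    intro T hT hTp y hy k
    refine coord_ne_zero hirr he hB hF hT hTp (k + 1) (k + 2) k ?_ ?_ ?_ hy
    · omega
    · omega
    · omega
  have hall : ∀ x ∈ (⋃ S ∈ F, convexHull ℝ (castSet S) : Set E3), ∀ k, e.coord k x ≠ 0 := by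
    intro x hx k
    rw [Set.mem_iUnion₂] at hx
    obtain ⟨S, hS, hxS⟩ := hx
    obtain ⟨T, hT, hTp, n, m, hsub⟩ := hF.torus S hS
    obtain ⟨y, hy, rfl⟩ := hull_move (hsub hxS)
    rw [coord_Bf (hμ' (n, m))]
    exact mul_ne_zero (hμ (n, m) k).ne' (hne T hT hTp y hy k)
  obtain ⟨φ⟩ := hF.disk
  have hconn : ConnectedSpace (⋃ S ∈ F, convexHull ℝ (castSet S) : Set E3) := by
    have h1 : IsConnected (Metric.closedBall (0 : EuclideanSpace ℝ (Fin 2)) 1) :=
      (convex_closedBall _ _).isConnected ⟨0, by simp⟩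
    have h2 : ConnectedSpace (Metric.closedBall (0 : EuclideanSpace ℝ (Fin 2)) 1) :=
      isConnected_iff_connectedSpace.1 h1
    exact φ.surjective.connectedSpace φ.continuous
  have hpre : IsPreconnected (⋃ S ∈ F, convexHull ℝ (castSet S) : Set E3) :=
    (isConnected_iff_connectedSpace.2 hconn).isPreconnected
  have hsign : ∀ k, (∀ x ∈ (⋃ S ∈ F, convexHull ℝ (castSet S) : Set E3), 0 < e.coord k x) ∨
      (∀ x ∈ (⋃ S ∈ F, convexHull ℝ (castSet S) : Set E3), e.coord k x < 0) := by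
    intro k
    by_contra hcon
    push Not at hcon
    obtain ⟨⟨x, hx, hx1⟩, ⟨y, hy, hy1⟩⟩ := hcon
    have hcont : ContinuousOn (fun x => e.coord k x)
        (⋃ S ∈ F, convexHull ℝ (castSet S) : Set E3) :=
      (e.coord k).continuous_of_finiteDimensional.continuousOn
    have h1 := hpre.intermediate_value hx hy hcont
    obtain ⟨z, hz, hz0⟩ := h1 ⟨hx1, hy1⟩
    exact hall z hz k hz0
  have hs : ∀ k, ∃ ε : ℝ, (ε = 1 ∨ ε = -1) ∧
      ∀ x ∈ (⋃ S ∈ F, convexHull ℝ (castSet S) : Set E3), 0 < ε * e.coord k x := by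
    intro k
    rcases hsign k with h | h
    · exact ⟨1, Or.inl rfl, fun x hx => by rw [one_mul]; exact h x hx⟩
    · refine ⟨-1, Or.inr rfl, fun x hx => ?_⟩
      have := h x hx
      linarith
  choose ε hε using hs
  exact ⟨ε, fun k => (hε k).1, fun x hx k => (hε k).2 x hx⟩

end Pool.Agent.V11212.SL
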